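import Pool.Agent.V5helper28.PI.Cons

set_option autoImplicit false
set_option linter.unusedSectionVars false
set_option linter.unusedVariables false

/-!
# The weak form for all numbers of coordinates
-/

open scoped Classical Pointwise

namespace Pool.Agent.V5helper28.PI

open Pool.Agent.R424.EX (one_le)
open Pool.Agent.N112.PR (Q1For zd_of_int)
open Pool.Agent.N112.WM (WeakAt q1_at)
open Pool.Agent.R92.Star (Concl)

universe u

/-- `G ^ n` is generated by `n k` elements -/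
theorem gens_pow {G : Type*} [AddCommGroup G] (n : ℕ) (S : Finset G)
    (hS : AddSubgroup.closure (S : Set G) = ⊤) :
    ∃ S' : Finset (Fin n → G), S'.card ≤ n * S.card ∧
      AddSubgroup.closure (S' : Set (Fin n → G)) = ⊤ := by
  refine ⟨(Finset.univ ×ˢ S).image fun q : Fin n × G => (Pi.single q.1 q.2 : Fin n → G), ?_, ?_⟩
  · refine Finset.card_image_le.trans ?_
    rw [Finset.card_product, Finset.card_univ, Fintype.card_fin]
  · rw [eq_top_iff]
    intro x _
    have hx : x = ∑ l, (Pi.single l (x l) : Fin n → G) := by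
      funext c
      rw [Finset.sum_apply]
      simp [Pi.single_apply]
    rw [hx]
    refine AddSubgroup.sum_mem _ fun l _ => ?_
    have h1 : x l ∈ AddSubgroup.closure (S : Set G) := by rw [hS]; exact AddSubgroup.mem_top _
    have h2 := AddSubgroup.mem_map_of_mem (AddMonoidHom.single (fun _ : Fin n => G) l) h1
    rw [AddMonoidHom.map_closure] at h2
    refine AddSubgroup.closure_mono ?_ h2
    rintro _ ⟨s, hs, rfl⟩
    exact Finset.mem_coe.2 (Finset.mem_image.2 ⟨(l, s), Finset.mem_product.2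
      ⟨Finset.mem_univ _, Finset.mem_coe.1 hs⟩, rfl⟩)

/-- **The weak form, for all `n`.** -/
theorem weak_form_all {G : Type u} [AddCommGroup G] [DecidableEq G] {n : ℕ}
    {A : Finset (Fin n → G)} (hA : Sym A) (hne : A.Nonempty) {K : ℝ}
    (hK : ((A + A).card : ℝ) ≤ K * A.card)
    (S : Finset G) (hS : AddSubgroup.closure (S : Set G) = ⊤) :
    ∃ (P : AddSubgroup (Fin n → G)) (S' T : Finset (Fin n → G)), Finite P ∧
      (((A : Set (Fin n → G)) + (P : Set (Fin n → G))).ncard : ℝ) ≤ (2 * K) ^ 100000 * A.card ∧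
      (S'.card : ℝ) ≤ 1000000000 * (S.card * Real.log (2 * K)) ∧ (T.card : ℝ) ≤ (2 * K) ^ 100000 ∧
      ∀ a ∈ A, ∃ t ∈ T, a - t ∈ P ⊔ AddSubgroup.closure (S' : Set (Fin n → G)) := by
  have hK1 : 1 ≤ K := one_le hne hK
  have h2K : 1 ≤ 2 * K := by linarith
  have hlog : (0.69 : ℝ) ≤ Real.log (2 * K) := by
    have h1 := Real.log_two_gt_d9
    have h2 : Real.log 2 ≤ Real.log (2 * K) := Real.log_le_log (by norm_num) (by linarith)
    linarith
  by_cases hn : 1000000000 * Real.log (2 * K) ≤ n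
  · obtain ⟨P, S', T, h1, h2, h3, h4, h5⟩ := weak_form hA hne hK hn S hS
    refine ⟨P, S', T, h1, h2, ?_, h4, h5⟩
    have h6 : (S'.card : ℝ) ≤ 2 * S.card := by exact_mod_cast h3
    have h7 : (0 : ℝ) ≤ S.card := Nat.cast_nonneg _
    nlinarith
  · rw [not_le] at hn
    obtain ⟨S', h1, h2⟩ := gens_pow n S hS
    refine ⟨⊥, S', {0}, inferInstance, ?_, ?_, ?_, ?_⟩
    · have e : (A : Set (Fin n → G)) + ((⊥ : AddSubgroup (Fin n → G)) : Set (Fin n → G)) =
          (A : Set (Fin n → G)) := by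
        rw [AddSubgroup.coe_bot, Set.singleton_zero, add_zero]
      rw [e, Set.ncard_coe_finset]
      exact le_mul_of_one_le_left (Nat.cast_nonneg _) (one_le_pow₀ h2K)
    · have h6 : (S'.card : ℝ) ≤ n * S.card := by exact_mod_cast h1
      have h7 : (0 : ℝ) ≤ S.card := Nat.cast_nonneg _
      calc (S'.card : ℝ) ≤ n * S.card := h6
        _ ≤ (1000000000 * Real.log (2 * K)) * S.card := mul_le_mul_of_nonneg_right hn.le h7
        _ = _ := by ring
    · rw [Finset.card_singleton, Nat.cast_one]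
      exact one_le_pow₀ h2K
    · intro a _
      refine ⟨0, Finset.mem_singleton_self _, ?_⟩
      rw [h2]
      exact AddSubgroup.mem_sup_right (AddSubgroup.mem_top _)

/-- **Q1 for the integers implies Q1 for permutation-invariant sets, all `n`.** -/
theorem q1_int_all (C : ℝ) (k : ℕ) : ∃ C' : ℝ, Q1For C ℤ →
    ∀ (G : Type u) [AddCommGroup G] [DecidableEq G] (n : ℕ) (K : ℝ) (A : Finset (Fin n → G)),
      A.Nonempty → Sym A → ((A + A).card : ℝ) ≤ K * A.card →
      (∃ S : Finset G, AddSubgroup.closure (S : Set G) = ⊤ ∧ S.card ≤ k) →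
      Concl C' K A := by
  obtain ⟨C₁, hC₁⟩ := zd_of_int C
  obtain ⟨E, hE⟩ : ∃ E : ℕ, E = 100000 := ⟨_, rfl⟩
  obtain ⟨D, hD⟩ : ∃ D : ℕ, D = 1000000000 := ⟨_, rfl⟩
  obtain ⟨C', hC'⟩ := q1_at.{u} C₁ (2 ^ E + D * k)
  refine ⟨C', ?_⟩
  intro hZ G _ _ n K A hne hA hK hS
  obtain ⟨S, hS, hSc⟩ := hS
  have hK1 : 1 ≤ K := one_le hne hK
  have hA0 : (0 : ℝ) ≤ A.card := Nat.cast_nonneg _
  obtain ⟨P, S', T, h1, h2, h3, h4, h5⟩ := weak_form_all hA hne hK S hS
  rw [← hE] at h2 h4
  refine hC' (hC₁ hZ) (Fin n → G) K A hne hK ?_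
  have hE2 : E ≤ 2 ^ E := Nat.lt_two_pow_self.le
  have hpow : (2 * K) ^ E ≤ ((2 ^ E + D * k : ℕ) : ℝ) * K ^ (2 ^ E + D * k) := by
    rw [mul_pow]
    refine mul_le_mul ?_ (pow_le_pow_right₀ hK1 (by omega)) (by positivity) (Nat.cast_nonneg _)
    push_cast
    have : (0 : ℝ) ≤ D * k := by positivity
    linarith
  refine ⟨P, S', T, h1, h2.trans (mul_le_mul_of_nonneg_right hpow hA0), ?_, h4.trans hpow, h5⟩
  have hlog : 0 ≤ Real.log (2 * K) := Real.log_nonneg (by linarith)
  have h6 : (S.card : ℝ) ≤ k := by exact_mod_cast hSc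
  have hDr : (1000000000 : ℝ) = D := by rw [hD]; norm_num
  rw [hDr] at h3
  calc (S'.card : ℝ) ≤ D * (S.card * Real.log (2 * K)) := h3
    _ ≤ D * (k * Real.log (2 * K)) := by
      refine mul_le_mul_of_nonneg_left (mul_le_mul_of_nonneg_right h6 hlog) (Nat.cast_nonneg _)
    _ = ((D * k : ℕ) : ℝ) * Real.log (2 * K) := by push_cast; ring
    _ ≤ ((2 ^ E + D * k : ℕ) : ℝ) * Real.log (2 * K) := by
      refine mul_le_mul_of_nonneg_right ?_ hlog
      exact_mod_cast (by omega : D * k ≤ 2 ^ E + D * k)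

end Pool.Agent.V5helper28.PI
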