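import Pool.Agent.V5helper28.PI.Gen
import Pool.Agent.N112.WM.Q1At
import Pool.Agent.N112.PR.All
import Pool.Agent.N112.PR.Main
import Pool.Agent.R849.IS.Pfr

set_option autoImplicit false
set_option linter.unusedSectionVars false
set_option linter.unusedVariables false

/-!
# Consequences: the weak form of the polynomial Freiman-Ruzsa conjecture
-/

open scoped Classical Pointwise

namespace Pool.Agent.V5helper28.PI

open Pool.Agent.R424.EX (one_le fib pr mem_pr mem_one cover card_cov mem_add_nsmul fs mem_fs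
  card_fs fs_ne card_le_fib concl_of lift)
open Pool.Agent.N112.PR (gen_hom Q1For zd_of_int)
open Pool.Agent.N112.WM (WeakAt q1_at)
open Pool.Agent.R92.Star (Concl)
open Pool.Agent.Y806.DF (Data nat_const hull lat re Body Cov)

universe u

variable {n : ℕ}

/-- subgroups of a group with `k` generators have `k` generators -/
theorem gens_sub {G : Type*} [AddCommGroup G] (S : Finset G)
    (hS : AddSubgroup.closure (S : Set G) = ⊤) (H : AddSubgroup G) :
    ∃ S' : Finset G, S'.card ≤ S.card ∧ AddSubgroup.closure (S' : Set G) = H := by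
  obtain ⟨ψ, hψ⟩ := gen_hom S
  rw [hS] at hψ
  have hsurj : ∀ g : G, ∃ x, ψ x = g := fun g => hψ (AddSubgroup.mem_top g)
  let Sm : Submodule ℤ (Fin S.card → ℤ) := AddSubgroup.toIntSubmodule (H.comap ψ)
  have hSm : ∀ x, x ∈ Sm ↔ ψ x ∈ H := fun x => Iff.rfl
  let b := Module.finBasis ℤ Sm
  have hr : Module.finrank ℤ Sm ≤ S.card := by
    have := Submodule.finrank_le Sm
    rwa [Module.finrank_fin_fun] at this
  refine ⟨Finset.univ.image fun i => ψ (b i : Fin S.card → ℤ), ?_, ?_⟩
  · refine Finset.card_image_le.trans ?_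
    rw [Finset.card_univ, Fintype.card_fin]
    exact hr
  · apply le_antisymm
    · rw [AddSubgroup.closure_le]
      intro g hg
      obtain ⟨i, -, rfl⟩ := Finset.mem_image.1 (Finset.mem_coe.1 hg)
      exact (hSm _).1 (b i).2
    · intro h hh
      obtain ⟨x, rfl⟩ := hsurj h
      have hx : x ∈ Sm := (hSm x).2 hh
      have h1 : (∑ i, b.repr ⟨x, hx⟩ i • b i : Sm) = ⟨x, hx⟩ := b.sum_repr _
      have h2 : x = ∑ i, b.repr ⟨x, hx⟩ i • (b i : Fin S.card → ℤ) := by
        have h3 := congrArg Sm.subtype h1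
        rw [map_sum] at h3
        simp only [map_smul, Submodule.subtype_apply] at h3
        exact h3.symm
      rw [h2, map_sum]
      refine AddSubgroup.sum_mem _ fun i _ => ?_
      rw [map_zsmul]
      exact AddSubgroup.zsmul_mem _ (AddSubgroup.subset_closure
        (Finset.mem_coe.2 (Finset.mem_image_of_mem _ (Finset.mem_univ i)))) _

/-- the diagonal -/
def diag (G : Type*) [AddCommGroup G] (n : ℕ) : G →+ (Fin n → G) where
  toFun g _ := g
  map_zero' := rfl
  map_add' _ _ := rfl

/-- the vectors which are constant modulo `H` -/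
def cm {G : Type*} [AddCommGroup G] (H : AddSubgroup G) (n : ℕ) : AddSubgroup (Fin n → G) where
  carrier := {x | ∀ c d, x c - x d ∈ H}
  zero_mem' := fun c d => by simp
  add_mem' := by
    intro x y hx hy c d
    have e : (x + y) c - (x + y) d = (x c - x d) + (y c - y d) := by
      simp only [Pi.add_apply]
      abel
    rw [e]
    exact H.add_mem (hx c d) (hy c d)
  neg_mem' := by
    intro x hx c d
    have e : (-x) c - (-x) d = -(x c - x d) := by
      simp only [Pi.neg_apply]
      abel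
    rw [e]
    exact H.neg_mem (hx c d)

theorem mem_cm {G : Type*} [AddCommGroup G] {H : AddSubgroup G} {x : Fin n → G} :
    x ∈ cm H n ↔ ∀ c d, x c - x d ∈ H := Iff.rfl

theorem zs_le_cm {G : Type*} [AddCommGroup G] (H : AddSubgroup G) :
    zs H (Finset.univ : Finset (Fin n)) ≤ cm H n := fun x hx c d => H.sub_mem (hx.1 c) (hx.1 d)

/-- `cm H n` is generated by the vectors with sum zero, the diagonal and one copy of `H` -/
theorem cm_gen {G : Type*} [AddCommGroup G] (S : Finset G)
    (hS : AddSubgroup.closure (S : Set G) = ⊤) (H : AddSubgroup G) (z : Fin n) :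
    ∃ S' : Finset (Fin n → G), S'.card ≤ 2 * S.card ∧
      cm H n ≤ zs H (Finset.univ : Finset (Fin n)) ⊔ AddSubgroup.closure (S' : Set (Fin n → G)) := by
  obtain ⟨SH, h1, h2⟩ := gens_sub S hS H
  let e : G →+ (Fin n → G) := AddMonoidHom.single (fun _ : Fin n => G) z
  refine ⟨S.image (diag G n) ∪ SH.image e, ?_, ?_⟩
  · refine (Finset.card_union_le _ _).trans ?_
    have a1 := Finset.card_image_le (s := S) (f := diag G n)
    have a2 := Finset.card_image_le (s := SH) (f := e)
    omega
  · intro x hx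
    have h3 : diag G n (x z) ∈ AddSubgroup.closure (((S.image (diag G n) ∪ SH.image e :
        Finset (Fin n → G)) : Set (Fin n → G))) := by
      have h4 : x z ∈ AddSubgroup.closure (S : Set G) := by rw [hS]; exact AddSubgroup.mem_top _
      have h5 := AddSubgroup.mem_map_of_mem (diag G n) h4
      rw [AddMonoidHom.map_closure] at h5
      refine AddSubgroup.closure_mono ?_ h5
      rw [Finset.coe_union, Finset.coe_image]
      exact Set.subset_union_left
    set y : Fin n → G := x - diag G n (x z) with hy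
    have hyH : ∀ l, y l ∈ H := fun l => hx l z
    have hsum : ∑ l, y l ∈ H := H.sum_mem fun l _ => hyH l
    have h4 : e (∑ l, y l) ∈ AddSubgroup.closure (((S.image (diag G n) ∪ SH.image e :
        Finset (Fin n → G)) : Set (Fin n → G))) := by
      rw [← h2] at hsum
      have h5 := AddSubgroup.mem_map_of_mem e hsum
      rw [AddMonoidHom.map_closure] at h5
      refine AddSubgroup.closure_mono ?_ h5
      rw [Finset.coe_union, Finset.coe_image, Finset.coe_image]
      exact Set.subset_union_right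
    have h5 : y - e (∑ l, y l) ∈ zs H (Finset.univ : Finset (Fin n)) := by
      refine ⟨fun l => ?_, fun l hl => absurd (Finset.mem_univ l) hl, ?_⟩
      · refine H.sub_mem (hyH l) ?_
        show (Pi.single z (∑ l, y l) : Fin n → G) l ∈ H
        rw [Pi.single_apply]
        split_ifs
        exacts [hsum, H.zero_mem]
      · simp only [Pi.sub_apply]
        rw [Finset.sum_sub_distrib]
        have : ∑ l, e (∑ l, y l) l = ∑ l, y l := by
          show ∑ l, (Pi.single z (∑ l, y l) : Fin n → G) l = _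
          rw [Finset.sum_pi_single']
          simp
        rw [this, sub_self]
    have e1 : x = (y - e (∑ l, y l)) + (e (∑ l, y l) + diag G n (x z)) := by
      rw [hy]
      abel
    rw [e1]
    exact AddSubgroup.add_mem_sup h5 (AddSubgroup.add_mem _ h4 h3)

/-- **The weak form, explicitly.** -/
theorem weak_form {G : Type u} [AddCommGroup G] [DecidableEq G]
    {A : Finset (Fin n → G)} (hA : Sym A) (hne : A.Nonempty) {K : ℝ}
    (hK : ((A + A).card : ℝ) ≤ K * A.card) (hn : 1000000000 * Real.log (2 * K) ≤ n)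
    (S : Finset G) (hS : AddSubgroup.closure (S : Set G) = ⊤) :
    ∃ (P : AddSubgroup (Fin n → G)) (S' T : Finset (Fin n → G)), Finite P ∧
      (((A : Set (Fin n → G)) + (P : Set (Fin n → G))).ncard : ℝ) ≤ (2 * K) ^ 100000 * A.card ∧
      S'.card ≤ 2 * S.card ∧ (T.card : ℝ) ≤ (2 * K) ^ 100000 ∧
      ∀ a ∈ A, ∃ t ∈ T, a - t ∈ P ⊔ AddSubgroup.closure (S' : Set (Fin n → G)) := by
  have hK1 : 1 ≤ K := one_le hne hK
  have hn2 := two_le hK1 hn
  obtain ⟨H, hHfin, ⟨T, hT, hTc, hcov⟩, hsize⟩ := gen_main hA hne hK hn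
  obtain ⟨S', hS', hcm⟩ := cm_gen S hS H (⟨0, by omega⟩ : Fin n)
  refine ⟨zs H (Finset.univ : Finset (Fin n)), S', T, inferInstance, hsize, hS', hTc, ?_⟩
  intro a ha
  obtain ⟨t, ht, h⟩ := hcov a ha
  exact ⟨t, ht, hcm fun c d => h c d⟩

/-- **Q1 for the integers implies Q1 for permutation-invariant sets.** -/
theorem q1_int (C : ℝ) (c : ℕ) : ∃ C' : ℝ, Q1For C ℤ →
    ∀ (G : Type u) [AddCommGroup G] [DecidableEq G] (n : ℕ) (K : ℝ) (A : Finset (Fin n → G)),
      A.Nonempty → Sym A → ((A + A).card : ℝ) ≤ K * A.card →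
      1000000000 * Real.log (2 * K) ≤ n →
      (∃ S : Finset G, AddSubgroup.closure (S : Set G) = ⊤ ∧ (S.card : ℝ) ≤ c * Real.log (2 * K)) →
      Concl C' K A := by
  obtain ⟨C₁, hC₁⟩ := zd_of_int C
  obtain ⟨E, hE⟩ : ∃ E : ℕ, E = 100000 := ⟨_, rfl⟩
  obtain ⟨C', hC'⟩ := q1_at.{u} C₁ (2 ^ E + 2 * c)
  refine ⟨C', ?_⟩
  intro hZ G _ _ n K A hne hA hK hn hS
  obtain ⟨S, hS, hSc⟩ := hS
  have hK1 : 1 ≤ K := one_le hne hK
  have hA0 : (0 : ℝ) ≤ A.card := Nat.cast_nonneg _
  obtain ⟨P, S', T, h1, h2, h3, h4, h5⟩ := weak_form hA hne hK hn S hS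
  rw [← hE] at h2 h4
  refine hC' (hC₁ hZ) (Fin n → G) K A hne hK ?_
  have hE2 : E ≤ 2 ^ E := Nat.lt_two_pow_self.le
  have hpow : (2 * K) ^ E ≤ ((2 ^ E + 2 * c : ℕ) : ℝ) * K ^ (2 ^ E + 2 * c) := by
    rw [mul_pow]
    refine mul_le_mul ?_ (pow_le_pow_right₀ hK1 (by omega)) (by positivity) (Nat.cast_nonneg _)
    push_cast
    have : (0 : ℝ) ≤ 2 * c := by positivity
    linarith
  refine ⟨P, S', T, h1, h2.trans (mul_le_mul_of_nonneg_right hpow hA0), ?_, h4.trans hpow, h5⟩
  have hlog : 0 ≤ Real.log (2 * K) := Real.log_nonneg (by linarith)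
  have h6 : (S'.card : ℝ) ≤ 2 * S.card := by exact_mod_cast h3
  calc (S'.card : ℝ) ≤ 2 * S.card := h6
    _ ≤ 2 * (c * Real.log (2 * K)) := by linarith
    _ = ((2 * c : ℕ) : ℝ) * Real.log (2 * K) := by push_cast; ring
    _ ≤ ((2 ^ E + 2 * c : ℕ) : ℝ) * Real.log (2 * K) := by
      refine mul_le_mul_of_nonneg_right ?_ hlog
      exact_mod_cast (by omega : 2 * c ≤ 2 ^ E + 2 * c)

/-- **Q1 for small groups, unconditionally.** -/
theorem q1_small (c : ℕ) : ∃ C' : ℝ,
    ∀ (G : Type u) [AddCommGroup G] [DecidableEq G] [Finite G] (n : ℕ) (K : ℝ)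
      (A : Finset (Fin n → G)), A.Nonempty → Sym A → ((A + A).card : ℝ) ≤ K * A.card →
      1000000000 * Real.log (2 * K) ≤ n → (Nat.card G : ℝ) ≤ (2 * K) ^ c → Concl C' K A := by
  obtain ⟨E, hE⟩ : ∃ E : ℕ, E = 100000 := ⟨_, rfl⟩
  obtain ⟨C', hC'⟩ := concl_of.{u} (2 ^ (E + 2 * c)) (E + 2 * c)
  refine ⟨C', ?_⟩
  intro G _ _ _ n K A hne hA hK hn hGc
  have hK1 : 1 ≤ K := one_le hne hK
  have hn2 := two_le hK1 hn
  have hApos : (0 : ℝ) < A.card := by exact_mod_cast hne.card_pos
  obtain ⟨H, hHfin, ⟨T, hT, hTc, hcov⟩, hsize⟩ := gen_main hA hne hK hn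
  rw [← hE] at hTc hsize
  set z : Fin n := ⟨0, by omega⟩ with hz
  have : Fintype G := Fintype.ofFinite G
  -- the classes modulo `zs H`
  let I : Finset ((Fin n → G) × (G × G)) := T ×ˢ (Finset.univ ×ˢ Finset.univ)
  obtain ⟨i, hi, hbig⟩ := Pool.Agent.Y806.DF.pigeon I A A hne
    (fun i a => (∀ c d, (a c - i.1 c) - (a d - i.1 d) ∈ H) ∧ i.2.1 = a z ∧ i.2.2 = ∑ l, a l)
    subset_rfl (by
      intro a ha
      obtain ⟨t, ht, h⟩ := hcov a ha
      exact ⟨(t, (a z, ∑ l, a l)), Finset.mem_product.2 ⟨ht, Finset.mem_product.2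
        ⟨Finset.mem_univ _, Finset.mem_univ _⟩⟩, h, rfl, rfl⟩)
  set F := A.filter (fun a => (∀ c d, (a c - i.1 c) - (a d - i.1 d) ∈ H) ∧ i.2.1 = a z ∧
    i.2.2 = ∑ l, a l) with hF
  have hIc : I.card = T.card * (Nat.card G * Nat.card G) := by
    rw [Finset.card_product, Finset.card_product, Finset.card_univ, Nat.card_eq_fintype_card]
  have hFne : F.Nonempty := by
    rw [← Finset.card_pos]
    by_contra hcon
    have : F.card = 0 := by omega
    rw [this, mul_zero] at hbig
    have := hne.card_pos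
    omega
  obtain ⟨a₀, ha₀⟩ := hFne
  have ha₀' := (Finset.mem_filter.1 ha₀).2
  obtain ⟨M, hM⟩ : ∃ M : ℝ, M = (2 * K) ^ (E + 2 * c) := ⟨_, rfl⟩
  have h2K : 1 ≤ 2 * K := by linarith
  have hM1 : 1 ≤ M := by rw [hM]; exact one_le_pow₀ h2K
  have hdata : Data M A ({0} : Finset (Fin 0 → ℤ)) (0 : (Fin 0 → ℤ) →+ (Fin n → G))
      (zs H (Finset.univ : Finset (Fin n))) a₀ := by
    refine ⟨Finset.singleton_nonempty _, inferInstance, ?_, ?_, ?_, ?_⟩
    · simp only [Finset.singleton_add_singleton, Finset.card_singleton, Nat.cast_one, mul_one]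
      exact hM1
    · rw [Finset.card_singleton, Nat.cast_one, mul_one]
      refine le_trans ?_ hM1
      have : (hull ({0} : Finset (Fin 0 → ℤ))).ncard ≤ 1 := Set.ncard_le_one_of_subsingleton _
      exact_mod_cast this
    · rw [Finset.card_singleton, Nat.cast_one, one_mul]
      have h1 : Nat.card (zs H (Finset.univ : Finset (Fin n))) ≤
          ((A : Set (Fin n → G)) +
            (zs H (Finset.univ : Finset (Fin n)) : Set (Fin n → G))).ncard := by
        rw [← SetLike.coe_sort_coe, Nat.card_coe_set_eq]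
        refine Set.ncard_le_ncard_of_injOn (fun x => a₀ + x) ?_ (fun x _ y _ h => add_left_cancel h)
          (Set.toFinite _)
        intro x hx
        exact Set.add_mem_add (Finset.mem_coe.2 (Finset.mem_filter.1 ha₀).1) hx
      have h2 : (Nat.card (zs H (Finset.univ : Finset (Fin n))) : ℝ) ≤ (2 * K) ^ E * A.card :=
        le_trans (by exact_mod_cast h1) hsize
      refine h2.trans (mul_le_mul_of_nonneg_right ?_ hApos.le)
      rw [hM]
      exact pow_le_pow_right₀ h2K (by omega)
    · have h1 : (F : Set (Fin n → G)) ⊆ {a | a ∈ A ∧ ∃ x ∈ ({0} : Finset (Fin 0 → ℤ)),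
          ∃ h ∈ zs H (Finset.univ : Finset (Fin n)),
            a = a₀ + (0 : (Fin 0 → ℤ) →+ (Fin n → G)) x + h} := by
        intro a ha
        have ha' := Finset.mem_filter.1 (Finset.mem_coe.1 ha)
        refine ⟨ha'.1, 0, Finset.mem_singleton_self _, a - a₀, ?_, ?_⟩
        · have e1 : a z = a₀ z := ha'.2.2.1.symm.trans ha₀'.2.1
          have e2 : ∑ l, a l = ∑ l, a₀ l := ha'.2.2.2.symm.trans ha₀'.2.2
          refine ⟨fun l => ?_, fun l hl => absurd (Finset.mem_univ l) hl, ?_⟩
          · have h2 := H.sub_mem (ha'.2.1 l z) (ha₀'.1 l z)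
            have e3 : (a l - i.1 l) - (a z - i.1 z) - ((a₀ l - i.1 l) - (a₀ z - i.1 z)) =
                (a - a₀) l := by
              rw [e1, Pi.sub_apply]
              abel
            rwa [e3] at h2
          · simp only [Pi.sub_apply]
            rw [Finset.sum_sub_distrib, e2, sub_self]
        · rw [AddMonoidHom.zero_apply, add_zero]
          abel
      have h2 := Set.ncard_le_ncard h1 (A.finite_toSet.subset fun a ha => ha.1)
      rw [Set.ncard_coe_finset] at h2
      have h3 : (A.card : ℝ) ≤ (T.card * (Nat.card G * Nat.card G)) * F.card := by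
        rw [hIc] at hbig
        exact_mod_cast hbig
      have h4 : (T.card * (Nat.card G * Nat.card G) : ℝ) ≤ M := by
        have h5 : (0 : ℝ) ≤ Nat.card G := Nat.cast_nonneg _
        calc (T.card * (Nat.card G * Nat.card G) : ℝ) ≤ (2 * K) ^ E * ((2 * K) ^ c * (2 * K) ^ c) := by
              gcongr
          _ = M := by
            rw [hM, ← pow_add, ← pow_add]
            congr 1
            omega
      calc (A.card : ℝ) ≤ (T.card * (Nat.card G * Nat.card G)) * F.card := h3
        _ ≤ M * F.card := mul_le_mul_of_nonneg_right h4 (Nat.cast_nonneg _)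
        _ ≤ _ := mul_le_mul_of_nonneg_left (by exact_mod_cast h2) (by linarith)
  refine hC' (Fin n → G) K A hne hK 0 _ _ _ a₀ (hdata.mono (le_of_eq ?_))
  rw [hM, mul_pow]
  push_cast
  rfl

end Pool.Agent.V5helper28.PI
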