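import Pool.Agent.V5helper28.PI.Ent

set_option autoImplicit false
set_option linter.unusedSectionVars false
set_option linter.unusedVariables false

/-!
# Permutation-invariant sets of sparse vectors have large doubling
-/

open scoped Classical Pointwise

namespace Pool.Agent.V5helper28.PI

variable {Q : Type*} [AddCommGroup Q] {n : ℕ}

theorem exp_le_one_sub {x : ℝ} (h0 : 0 ≤ x) (h1 : x ≤ 1 / 2) : Real.exp (-(2 * x)) ≤ 1 - x := by
  have h2 : 0 < 1 - x := by linarith
  rw [← Real.le_log_iff_exp_le h2]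
  have h3 := Real.one_sub_inv_le_log_of_pos h2
  have h4 : (1 - x)⁻¹ ≤ 1 + 2 * x := by
    rw [inv_le_iff_one_le_mul₀ h2]
    nlinarith
  linarith

/-- the elements of `Y` which vanish outside `R` -/
noncomputable def ins (Y : Finset (Fin n → Q)) (R : Finset (Fin n)) : Finset (Fin n → Q) :=
  Y.filter fun y => ∀ i, i ∉ R → y i = 0

theorem mem_ins {Y : Finset (Fin n → Q)} {R : Finset (Fin n)} {y : Fin n → Q} :
    y ∈ ins Y R ↔ y ∈ Y ∧ ∀ i, i ∉ R → y i = 0 := Finset.mem_filter

/-- the first `r` places -/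
noncomputable def ini (n r : ℕ) : Finset (Fin n) := Finset.univ.filter fun i => i.val < r

theorem mem_ini {r : ℕ} {i : Fin n} : i ∈ ini n r ↔ i.val < r := by simp [ini]

theorem card_ini {r : ℕ} (hr : r ≤ n) : (ini n r).card = r := by
  have h : (ini n r).card = (Finset.range r).card := by
    refine Finset.card_bij (fun i _ => i.val) ?_ ?_ ?_
    · intro i hi
      rw [Finset.mem_range]
      exact mem_ini.1 hi
    · intro i _ j _ h
      exact Fin.ext h
    · intro k hk
      rw [Finset.mem_range] at hk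
      exact ⟨⟨k, by omega⟩, mem_ini.2 hk, rfl⟩
  rw [h, Finset.card_range]

theorem ins_erase_le {Y : Finset (Fin n → Q)} (hY : Sym Y) {r : ℕ} (hr : r < n) {i : Fin n}
    (hi : i.val < r + 1) :
    ((ins Y (ini n (r + 1))).filter fun y => y i = 0).card ≤ (ins Y (ini n r)).card := by
  set R : Fin n := ⟨r, hr⟩ with hR
  set σ := Equiv.swap i R with hσ
  refine Finset.card_le_card_of_injOn (fun y => y ∘ σ) ?_ ?_
  · intro y hy
    rw [Finset.mem_coe, Finset.mem_filter, mem_ins] at hy
    rw [Finset.mem_coe, mem_ins]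
    refine ⟨hY σ y hy.1.1, fun l hl => ?_⟩
    rw [mem_ini] at hl
    show y (σ l) = 0
    by_cases h1 : l = R
    · rw [h1, hσ, Equiv.swap_apply_right]
      exact hy.2
    · have h2 : r < l.val := by
        have : l.val ≠ r := fun h => h1 (Fin.ext h)
        omega
      have h3 : l ≠ i := by
        intro h
        rw [h] at h2
        omega
      rw [hσ, Equiv.swap_apply_of_ne_of_ne h3 h1]
      exact hy.1.2 l (by rw [mem_ini]; omega)
  · intro x _ y _ hxy
    funext l
    have := congrFun hxy (σ.symm l)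
    simpa using this

theorem ins_step {Y : Finset (Fin n → Q)} (hY : Sym Y) {s : ℕ}
    (hs : ∀ y ∈ Y, (Finset.univ.filter fun i => y i ≠ 0).card ≤ s) {r : ℕ} (hr : r < n) :
    (r + 1) * (ins Y (ini n (r + 1))).card ≤
      s * (ins Y (ini n (r + 1))).card + (r + 1) * (ins Y (ini n r)).card := by
  have h1 : ∑ i ∈ ini n (r + 1), ((ins Y (ini n (r + 1))).filter fun y => y i = 0).card ≤
      (r + 1) * (ins Y (ini n r)).card := by
    calc _ ≤ ∑ i ∈ ini n (r + 1), (ins Y (ini n r)).card :=
          Finset.sum_le_sum fun i hi => ins_erase_le hY hr (mem_ini.1 hi)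
      _ = _ := by rw [Finset.sum_const, card_ini (by omega), smul_eq_mul]
  have h2 : ∑ i ∈ ini n (r + 1), ((ins Y (ini n (r + 1))).filter fun y => y i = 0).card =
      ∑ y ∈ ins Y (ini n (r + 1)), ((ini n (r + 1)).filter fun i => y i = 0).card := by
    simp only [Finset.card_filter]
    rw [Finset.sum_comm]
  have h3 : ∀ y ∈ ins Y (ini n (r + 1)), r + 1 ≤ s + ((ini n (r + 1)).filter fun i => y i = 0).card := by
    intro y hy
    have h4 := Finset.card_filter_add_card_filter_not (s := ini n (r + 1)) (fun i => y i = 0)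
    rw [card_ini (by omega)] at h4
    have h5 : ((ini n (r + 1)).filter fun i => ¬ y i = 0).card ≤
        (Finset.univ.filter fun i => y i ≠ 0).card :=
      Finset.card_le_card (Finset.filter_subset_filter _ (Finset.subset_univ _))
    have h6 := hs y (mem_ins.1 hy).1
    omega
  have h4 : ∑ y ∈ ins Y (ini n (r + 1)), (r + 1) ≤
      ∑ y ∈ ins Y (ini n (r + 1)), (s + ((ini n (r + 1)).filter fun i => y i = 0).card) :=
    Finset.sum_le_sum h3
  rw [Finset.sum_const, smul_eq_mul, Finset.sum_add_distrib, Finset.sum_const, smul_eq_mul, ← h2] at h4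
  nlinarith

theorem ins_down {Y : Finset (Fin n → Q)} (hY : Sym Y) {s m : ℕ}
    (hs : ∀ y ∈ Y, (Finset.univ.filter fun i => y i ≠ 0).card ≤ s) (hm : 0 < m) (hsm : 2 * s ≤ m) :
    ∀ k : ℕ, m + k ≤ n → Real.exp (-(k * (2 * (s / m : ℝ)))) * (ins Y (ini n (m + k))).card ≤
      (ins Y (ini n m)).card := by
  intro k
  induction k with
  | zero => intro _; simp
  | succ k ih =>
    intro hk
    refine le_trans ?_ (ih (by omega))
    have h1 := ins_step hY hs (r := m + k) (by omega)
    have h1' : ((m : ℝ) + k + 1) * (ins Y (ini n (m + k + 1))).card ≤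
        s * (ins Y (ini n (m + k + 1))).card + ((m : ℝ) + k + 1) * (ins Y (ini n (m + k))).card := by
      exact_mod_cast h1
    have hm0 : (0 : ℝ) < m := by exact_mod_cast hm
    have hsm' : 2 * (s : ℝ) ≤ m := by exact_mod_cast hsm
    have hs0 : (0 : ℝ) ≤ s := Nat.cast_nonneg _
    have hk0 : (0 : ℝ) ≤ k := Nat.cast_nonneg _
    have h2 : Real.exp (-(2 * (s / m : ℝ))) ≤ 1 - s / m :=
      exp_le_one_sub (by positivity) (by rw [div_le_iff₀ hm0]; linarith)
    set F : ℝ := ((ins Y (ini n (m + k + 1))).card : ℝ) with hF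
    set F' : ℝ := ((ins Y (ini n (m + k))).card : ℝ) with hF'
    have hF0 : 0 ≤ F := Nat.cast_nonneg _
    have h3 : (1 - s / m) * F ≤ F' := by
      have h4 : (1 - (s : ℝ) / m) * F ≤ (1 - s / (m + k + 1)) * F := by
        refine mul_le_mul_of_nonneg_right ?_ hF0
        have : (s : ℝ) / (m + k + 1) ≤ s / m := by gcongr; linarith
        linarith
      refine h4.trans ?_
      have h5 : (0 : ℝ) < m + k + 1 := by positivity
      have h6 : (1 - (s : ℝ) / (m + k + 1)) * F = ((m + k + 1) * F - s * F) / (m + k + 1) := by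
        field_simp
      rw [h6, div_le_iff₀ h5]
      linarith
    have e : -(((k + 1 : ℕ) : ℝ) * (2 * (s / m : ℝ))) = -(k * (2 * (s / m : ℝ))) + -(2 * (s / m : ℝ)) := by
      push_cast; ring
    rw [e, Real.exp_add, mul_assoc]
    refine mul_le_mul_of_nonneg_left ?_ (Real.exp_pos _).le
    exact (mul_le_mul_of_nonneg_right h2 hF0).trans h3

/-- change of the instance -/
theorem card_add_inst {α : Type*} [Add α] (i j : DecidableEq α) (A : Finset α) :
    (((@HAdd.hAdd _ _ _ (@instHAdd _ (@Finset.add α i _)) A A).card : ℕ) : ℝ) =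
      (((@HAdd.hAdd _ _ _ (@instHAdd _ (@Finset.add α j _)) A A).card : ℕ) : ℝ) := by
  rw [Subsingleton.elim i j]

/-- change of the instance -/
theorem filter_inst {α : Type*} [Fintype α] (p : α → Prop) (i j : DecidablePred p) :
    (@Finset.filter α p i Finset.univ).card = (@Finset.filter α p j Finset.univ).card := by
  rw [Subsingleton.elim i j]

/-- **Permutation-invariant sets of sparse vectors have large doubling.** -/
theorem sparse_doubling {Y : Finset (Fin n → Q)} (hY : Sym Y) {s : ℕ}
    (hs : ∀ y ∈ Y, (Finset.univ.filter fun i => y i ≠ 0).card ≤ s) (hn : 2 ≤ n)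
    (hsn : 5 * s ≤ n) :
    (Y.card : ℝ) ^ 2 ≤ Real.exp (8 * s) * (Y + Y).card := by
  obtain ⟨m, hm⟩ : ∃ m : ℕ, m = n / 2 := ⟨_, rfl⟩
  have hm1 : 1 ≤ m := by omega
  have h1 := ins_down hY hs (m := m) (by omega) (by omega) (n - m) (by omega)
  have hmn : m + (n - m) = n := by omega
  rw [hmn] at h1
  have h2 : ins Y (ini n n) = Y := by
    unfold ins
    rw [Finset.filter_true_of_mem]
    intro y _ i hi
    exact absurd (mem_ini.2 i.2) hi
  rw [h2] at h1
  have hm0 : (0 : ℝ) < m := by exact_mod_cast (by omega : 0 < m)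
  have h3 : Real.exp (-(4 * (s : ℝ))) * Y.card ≤ (ins Y (ini n m)).card := by
    refine le_trans (mul_le_mul_of_nonneg_right (Real.exp_le_exp.2 ?_) (Nat.cast_nonneg _)) h1
    have h4 : ((n - m : ℕ) : ℝ) ≤ 2 * m := by
      have : n - m ≤ 2 * m := by omega
      exact_mod_cast this
    have hs0 : (0 : ℝ) ≤ s := Nat.cast_nonneg _
    have h5 : ((n - m : ℕ) : ℝ) * (2 * (s / m : ℝ)) ≤ 2 * m * (2 * (s / m : ℝ)) :=
      mul_le_mul_of_nonneg_right h4 (by positivity)
    have h6 : 2 * (m : ℝ) * (2 * (s / m : ℝ)) = 4 * s := by field_simp; ring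
    linarith
  -- the other half
  set R' : Finset (Fin n) := Finset.univ.filter fun i => m ≤ i.val with hR'
  have h4 : (ins Y (ini n m)).card ≤ (ins Y R').card := by
    refine Finset.card_le_card_of_injOn (fun y => y ∘ Fin.revPerm) ?_ ?_
    · intro y hy
      rw [Finset.mem_coe, mem_ins] at hy ⊢
      refine ⟨hY _ y hy.1, fun l hl => ?_⟩
      show y (Fin.revPerm l) = 0
      apply hy.2
      rw [mem_ini, Fin.revPerm_apply, Fin.val_rev]
      have h5 : ¬ m ≤ l.val := fun h => hl (by rw [hR']; simpa using h)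
      have := l.2
      omega
    · intro x _ y _ hxy
      funext l
      have := congrFun hxy (Fin.revPerm.symm l)
      simpa using this
  have h5 : (ins Y (ini n m)).card * (ins Y R').card ≤ (Y + Y).card := by
    rw [← Finset.card_product]
    refine Finset.card_le_card_of_injOn (fun p => p.1 + p.2) ?_ ?_
    · intro p hp
      rw [Finset.mem_coe, Finset.mem_product, mem_ins, mem_ins] at hp
      exact Finset.mem_coe.2 (Finset.add_mem_add hp.1.1 hp.2.1)
    · rintro ⟨p1, p2⟩ hp ⟨q1, q2⟩ hq hpq
      rw [Finset.mem_coe, Finset.mem_product, mem_ins, mem_ins] at hp hq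
      have h6 : ∀ l, p1 l + p2 l = q1 l + q2 l := fun l => congrFun hpq l
      have h7 : ∀ l : Fin n, p1 l = q1 l ∧ p2 l = q2 l := by
        intro l
        by_cases hl : l.val < m
        · have h8 : l ∉ R' := by
            rw [hR', Finset.mem_filter]
            push Not
            intro _
            exact hl
          have e1 := hp.2.2 l h8
          have e2 := hq.2.2 l h8
          have e3 := h6 l
          simp only at e1 e2
          rw [e1, e2, add_zero, add_zero] at e3
          exact ⟨e3, e1.trans e2.symm⟩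
        · have h8 : l ∉ ini n m := fun h => hl (mem_ini.1 h)
          have e1 := hp.1.2 l h8
          have e2 := hq.1.2 l h8
          have e3 := h6 l
          simp only at e1 e2
          rw [e1, e2, zero_add, zero_add] at e3
          exact ⟨e1.trans e2.symm, e3⟩
      rw [Prod.mk.injEq]
      exact ⟨funext fun l => (h7 l).1, funext fun l => (h7 l).2⟩
  have h6 : ((ins Y (ini n m)).card : ℝ) * (ins Y (ini n m)).card ≤ (Y + Y).card := by
    have h7 : (ins Y (ini n m)).card * (ins Y (ini n m)).card ≤ (Y + Y).card :=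
      (Nat.mul_le_mul_left _ h4).trans h5
    exact_mod_cast h7
  have h7 : Real.exp (-(4 * (s : ℝ))) * Y.card * (Real.exp (-(4 * (s : ℝ))) * Y.card) ≤ (Y + Y).card :=
    (mul_le_mul h3 h3 (by positivity) (Nat.cast_nonneg _)).trans h6
  have h8 : Real.exp (8 * (s : ℝ)) * (Real.exp (-(4 * (s : ℝ))) * Real.exp (-(4 * (s : ℝ)))) = 1 := by
    rw [← Real.exp_add, ← Real.exp_add]
    ring_nf
    exact Real.exp_zero
  calc (Y.card : ℝ) ^ 2 = (Real.exp (8 * (s : ℝ)) * (Real.exp (-(4 * (s : ℝ))) * Real.exp (-(4 * (s : ℝ))))) *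
        Y.card ^ 2 := by rw [h8, one_mul]
    _ = Real.exp (8 * (s : ℝ)) * (Real.exp (-(4 * (s : ℝ))) * Y.card * (Real.exp (-(4 * (s : ℝ))) * Y.card)) := by
        ring
    _ ≤ _ := mul_le_mul_of_nonneg_left h7 (Real.exp_pos _).le

end Pool.Agent.V5helper28.PI
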