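import Pool.Agent.V5helper28.PI.Ent2
import Pool.Agent.V5helper28.PI.Sparse
import Pool.Agent.R424.EX.Basic

set_option autoImplicit false
set_option linter.unusedSectionVars false
set_option linter.unusedVariables false

/-!
# Permutation-invariant sets: few classes modulo the vectors which are constant modulo `H`
-/

open scoped Classical Pointwise

namespace Pool.Agent.V5helper28.PI

open Pool.Agent.R424.EX (fib pr mem_pr mem_one)

variable {G : Type*} [AddCommGroup G] {n : ℕ}

/-- `x ↦ (x_c - x_0 mod H)_c` -/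
noncomputable def rho (H : AddSubgroup G) (z : Fin n) : (Fin n → G) →+ (Fin n → G ⧸ H) where
  toFun x c := ((x c - x z : G) : G ⧸ H)
  map_zero' := by
    funext c
    simp
  map_add' x y := by
    funext c
    simp only [Pi.add_apply]
    rw [← QuotientAddGroup.mk_add]
    congr 1
    abel

theorem rho_apply (H : AddSubgroup G) (z : Fin n) (x : Fin n → G) (c : Fin n) :
    rho H z x c = ((x c - x z : G) : G ⧸ H) := rfl

theorem rho_eq {H : AddSubgroup G} {z : Fin n} {x y : Fin n → G} (h : rho H z x = rho H z y)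
    (c d : Fin n) : (x c - y c) - (x d - y d) ∈ H := by
  have h1 : ∀ c, (x c - x z) - (y c - y z) ∈ H := by
    intro c
    have h2 := congrFun h c
    rw [rho_apply, rho_apply, eq_comm, QuotientAddGroup.eq, neg_add_eq_sub] at h2
    exact h2
  have h3 := H.sub_mem (h1 c) (h1 d)
  have e : (x c - y c) - (x d - y d) = (x c - x z) - (y c - y z) - ((x d - x z) - (y d - y z)) := by
    abel
  rw [e]
  exact h3

/-- the largest fibre -/
theorem big_fibre {α β : Type*} [DecidableEq β] (B : Finset α) (hB : B.Nonempty) (f : α → β) :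
    ∃ v ∈ B.image f, B.card ≤ (B.image f).card * (B.filter fun x => f x = v).card := by
  obtain ⟨v, hv, hmax⟩ := (B.image f).exists_max_image (fun v => (B.filter fun x => f x = v).card)
    (hB.image f)
  refine ⟨v, hv, ?_⟩
  calc B.card ≤ (B.filter fun x => f x = v).card * (B.image f).card :=
        Finset.card_le_mul_card_image B _ fun w hw => hmax w hw
    _ = _ := mul_comm _ _

theorem few_classes {A : Finset (Fin n → G)} (hA : Sym A) (hne : A.Nonempty) {K : ℝ}
    (hK1 : 1 ≤ K) (hK : ((A + A).card : ℝ) ≤ K * A.card) (H : AddSubgroup G) {s : ℕ}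
    (hsn : 5 * s ≤ n) (hn : 2 ≤ n)
    (hB : A.card ≤ 2 * (A.filter fun x => ∃ d : Fin n,
      (Finset.univ.filter fun c => x c - x d ∉ H).card ≤ s).card) (z : Fin n) :
    ((A.image (rho H z)).card : ℝ) ≤ 4 * K ^ 4 * Real.exp (8 * s) := by
  have hc : (0 : ℝ) < A.card := by exact_mod_cast hne.card_pos
  set B := A.filter fun x => ∃ d : Fin n, (Finset.univ.filter fun c => x c - x d ∉ H).card ≤ s
    with hBdef
  have hBne : B.Nonempty := by
    rw [← Finset.card_pos]
    have := hne.card_pos
    omega
  -- sparse vectors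
  set ν : (Fin n → G) × Fin n → (Fin n → G ⧸ H) := fun p c => ((p.1 c - p.1 p.2 : G) : G ⧸ H) with hν
  set Y : Finset (Fin n → G ⧸ H) := ((A ×ˢ (Finset.univ : Finset (Fin n))).image ν).filter
    fun y => (Finset.univ.filter fun i => y i ≠ 0).card ≤ s with hY
  have hYs : ∀ y ∈ Y, (Finset.univ.filter fun i => y i ≠ 0).card ≤ s := fun y hy =>
    (Finset.mem_filter.1 hy).2
  have hYrep : ∀ y ∈ Y, ∃ x ∈ A, ∃ d, ν (x, d) = y := by
    intro y hy
    obtain ⟨⟨x, d⟩, hp, rfl⟩ := Finset.mem_image.1 (Finset.mem_filter.1 hy).1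
    exact ⟨x, (Finset.mem_product.1 hp).1, d, rfl⟩
  have hYsym : Sym Y := by
    intro σ y hy
    obtain ⟨x, hx, d, rfl⟩ := hYrep y hy
    refine Finset.mem_filter.2 ⟨Finset.mem_image.2 ⟨(x ∘ σ, σ.symm d),
      Finset.mem_product.2 ⟨hA σ x hx, Finset.mem_univ _⟩, ?_⟩, ?_⟩
    · funext c
      simp [hν]
    · refine le_trans (Finset.card_le_card_of_injOn σ ?_ σ.injective.injOn) (hYs _ hy)
      intro c hc
      rw [Finset.mem_coe, Finset.mem_filter] at hc ⊢
      exact ⟨Finset.mem_univ _, hc.2⟩
  set r : (Fin n → G ⧸ H) → (Fin n → G ⧸ H) := fun y c => y c - y z with hr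
  have hrν : ∀ x d, r (ν (x, d)) = rho H z x := by
    intro x d
    funext c
    simp only [hr, hν]
    rw [rho_apply, ← QuotientAddGroup.mk_sub]
    congr 1
    abel
  -- `|ρ(B)| ≤ |Y|`
  have h1 : (B.image (rho H z)).card ≤ Y.card := by
    refine le_trans (Finset.card_le_card ?_) (Finset.card_image_le (s := Y) (f := r))
    intro v hv
    obtain ⟨x, hx, rfl⟩ := Finset.mem_image.1 hv
    rw [hBdef, Finset.mem_filter] at hx
    obtain ⟨hxA, d, hd⟩ := hx
    refine Finset.mem_image.2 ⟨ν (x, d), Finset.mem_filter.2 ⟨Finset.mem_image.2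
      ⟨(x, d), Finset.mem_product.2 ⟨hxA, Finset.mem_univ _⟩, rfl⟩, ?_⟩, hrν x d⟩
    refine le_trans (le_of_eq ?_) hd
    congr 1
    ext c
    simp only [Finset.mem_filter, Finset.mem_univ, true_and, hν]
    rw [Ne, QuotientAddGroup.eq_zero_iff]
  have hYne : Y.Nonempty := by
    rw [← Finset.card_pos]
    have := (hBne.image (rho H z)).card_pos
    omega
  -- `|Y + Y| ≤ |ρ(A + A)|`
  have h2 : (Y + Y).card ≤ ((A + A).image (rho H z)).card := by
    refine Finset.card_le_card_of_injOn r ?_ ?_
    · intro w hw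
      obtain ⟨y1, hy1, y2, hy2, rfl⟩ := Finset.mem_add.1 (Finset.mem_coe.1 hw)
      obtain ⟨x1, hx1, d1, rfl⟩ := hYrep y1 hy1
      obtain ⟨x2, hx2, d2, rfl⟩ := hYrep y2 hy2
      refine Finset.mem_coe.2 (Finset.mem_image.2 ⟨x1 + x2, Finset.add_mem_add hx1 hx2, ?_⟩)
      rw [map_add, ← hrν x1 d1, ← hrν x2 d2]
      funext c
      simp only [hr, Pi.add_apply]
      abel
    · intro w hw w' hw' hww
      have hsup : ∀ w ∈ Y + Y, (Finset.univ.filter fun i => w i ≠ 0).card ≤ s + s := by
        intro w hw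
        obtain ⟨y1, hy1, y2, hy2, rfl⟩ := Finset.mem_add.1 hw
        refine le_trans (Finset.card_le_card ?_) ((Finset.card_union_le _ _).trans
          (Nat.add_le_add (hYs _ hy1) (hYs _ hy2)))
        intro c hc
        rw [Finset.mem_filter] at hc
        rw [Finset.mem_union, Finset.mem_filter, Finset.mem_filter]
        by_contra hcon
        push Not at hcon
        apply hc.2
        have e1 := hcon.1 (Finset.mem_univ _)
        have e2 := hcon.2 (Finset.mem_univ _)
        rw [Pi.add_apply, e1, e2, add_zero]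
      have hs1 := hsup w (Finset.mem_coe.1 hw)
      have hs2 := hsup w' (Finset.mem_coe.1 hw')
      obtain ⟨l, hl1, hl2⟩ : ∃ l : Fin n, w l = 0 ∧ w' l = 0 := by
        by_contra hcon
        push Not at hcon
        have h3 : (Finset.univ : Finset (Fin n)) ⊆ (Finset.univ.filter fun i => w i ≠ 0) ∪
            (Finset.univ.filter fun i => w' i ≠ 0) := by
          intro l _
          rw [Finset.mem_union, Finset.mem_filter, Finset.mem_filter]
          by_cases h4 : w l = 0
          · exact Or.inr ⟨Finset.mem_univ _, hcon l h4⟩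
          · exact Or.inl ⟨Finset.mem_univ _, h4⟩
        have h4 := (Finset.card_le_card h3).trans (Finset.card_union_le _ _)
        rw [Finset.card_univ, Fintype.card_fin] at h4
        omega
      have h5 : ∀ c, w c - w z = w' c - w' z := fun c => congrFun hww c
      have h6 := h5 l
      rw [hl1, hl2, zero_sub, zero_sub, neg_inj] at h6
      funext c
      have h7 := h5 c
      rw [h6] at h7
      exact sub_left_injective h7
  have h3 : (Y.card : ℝ) ^ 2 ≤ Real.exp (8 * s) * (Y + Y).card := by
    have h3 := sparse_doubling hYsym (s := s)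
      (fun y hy => (filter_inst _ _ _).le.trans (hYs y hy)) hn hsn
    rw [card_add_inst _ _ Y] at h3
    exact h3
  -- the largest fibre
  obtain ⟨v, hv, hF⟩ := big_fibre B hBne (rho H z)
  set F := B.filter fun x => rho H z x = v with hFdef
  have hFA : F ⊆ A := (Finset.filter_subset _ _).trans (Finset.filter_subset _ _)
  have h4 : ((A + A).image (rho H z)).card * F.card ≤ (A + A + F).card :=
    fib (rho H z) (A + A) F v fun q hq => (Finset.mem_filter.1 hq).2
  have h5 : (A.image (rho H z)).card * F.card ≤ (A + F).card :=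
    fib (rho H z) A F v fun q hq => (Finset.mem_filter.1 hq).2
  have h6 : ((A + A + F).card : ℝ) ≤ K ^ 3 * A.card := by
    have h7 := pr hne hK 3 0
    rw [zero_nsmul, sub_zero] at h7
    refine le_trans ?_ h7
    have h8 : A + A + F ⊆ 3 • A := by
      have e : (3 : ℕ) • A = A + A + A := by
        rw [succ_nsmul, two_nsmul]
      rw [e]
      exact Finset.add_subset_add_left hFA
    exact_mod_cast Finset.card_le_card h8
  have h7 : ((A + F).card : ℝ) ≤ K * A.card := by
    refine le_trans ?_ hK
    exact_mod_cast Finset.card_le_card (Finset.add_subset_add_left hFA)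
  have hFpos : (0 : ℝ) < F.card := by
    have : 0 < F.card := by
      rw [Finset.card_pos]
      obtain ⟨x, hx, hxv⟩ := Finset.mem_image.1 hv
      exact ⟨x, Finset.mem_filter.2 ⟨hx, hxv⟩⟩
    exact_mod_cast this
  have hYpos : (0 : ℝ) < Y.card := by exact_mod_cast hYne.card_pos
  have h8 : (A.card : ℝ) ≤ 2 * (Y.card * F.card) := by
    have h9 : A.card ≤ 2 * (Y.card * F.card) :=
      hB.trans (Nat.mul_le_mul_left 2 (hF.trans (Nat.mul_le_mul_right _ h1)))
    exact_mod_cast h9
  have h4' : (((A + A).image (rho H z)).card : ℝ) * F.card ≤ K ^ 3 * A.card :=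
    le_trans (by exact_mod_cast h4) h6
  have h5' : ((A.image (rho H z)).card : ℝ) * F.card ≤ K * A.card :=
    le_trans (by exact_mod_cast h5) h7
  have h2' : ((Y + Y).card : ℝ) ≤ ((A + A).image (rho H z)).card := by exact_mod_cast h2
  have hK0 : 0 < K := by linarith
  set e8 := Real.exp (8 * (s : ℝ)) with he8
  have he0 : 0 < e8 := Real.exp_pos _
  have h9 : (Y.card : ℝ) ≤ 2 * K ^ 3 * e8 := by
    have h10 : (Y.card : ℝ) ^ 2 * F.card ≤ e8 * (K ^ 3 * (2 * (Y.card * F.card))) := by
      calc (Y.card : ℝ) ^ 2 * F.card ≤ e8 * (Y + Y).card * F.card :=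
            mul_le_mul_of_nonneg_right h3 hFpos.le
        _ ≤ e8 * ((A + A).image (rho H z)).card * F.card := by gcongr
        _ = e8 * (((A + A).image (rho H z)).card * F.card) := by ring
        _ ≤ e8 * (K ^ 3 * A.card) := by gcongr
        _ ≤ _ := by gcongr
    have h11 : (Y.card * F.card : ℝ) * Y.card ≤ (Y.card * F.card : ℝ) * (2 * K ^ 3 * e8) := by
      nlinarith
    exact le_of_mul_le_mul_left h11 (by positivity)
  have h10 : ((A.image (rho H z)).card : ℝ) * F.card ≤ (2 * K * Y.card) * F.card := by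
    calc ((A.image (rho H z)).card : ℝ) * F.card ≤ K * A.card := h5'
      _ ≤ K * (2 * (Y.card * F.card)) := by gcongr
      _ = _ := by ring
  have h11 := le_of_mul_le_mul_right h10 hFpos
  calc ((A.image (rho H z)).card : ℝ) ≤ 2 * K * Y.card := h11
    _ ≤ 2 * K * (2 * K ^ 3 * e8) := by gcongr
    _ = _ := by ring

end Pool.Agent.V5helper28.PI
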