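import Pool.Agent.V5helper28.PI.Count
import Pool.Agent.R424.EX.Core

set_option autoImplicit false
set_option linter.unusedSectionVars false
set_option linter.unusedVariables false

/-!
# Permutation-invariant sets are dense in the cosets of `{h ∈ H^n, ∑ h = 0}`
-/

open scoped Classical Pointwise

namespace Pool.Agent.V5helper28.PI

open Pool.Agent.R424.EX (fib pr mem_pr mem_one cover card_cov mem_add_nsmul fs mem_fs card_fs fs_ne)

variable {G : Type*} [AddCommGroup G] {n : ℕ}

/-- vectors with coordinates in `H`, zero outside `J`, and sum zero -/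
def zs (H : AddSubgroup G) (J : Finset (Fin n)) : AddSubgroup (Fin n → G) where
  carrier := {x | (∀ l, x l ∈ H) ∧ (∀ l, l ∉ J → x l = 0) ∧ ∑ l, x l = 0}
  zero_mem' := ⟨fun _ => H.zero_mem, fun _ _ => rfl, by simp⟩
  add_mem' := by
    rintro x y ⟨h1, h2, h3⟩ ⟨h4, h5, h6⟩
    refine ⟨fun l => H.add_mem (h1 l) (h4 l), fun l hl => ?_, ?_⟩
    · rw [Pi.add_apply, h2 l hl, h5 l hl, add_zero]
    · simp only [Pi.add_apply]
      rw [Finset.sum_add_distrib, h3, h6, add_zero]
  neg_mem' := by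
    rintro x ⟨h1, h2, h3⟩
    refine ⟨fun l => H.neg_mem (h1 l), fun l hl => ?_, ?_⟩
    · rw [Pi.neg_apply, h2 l hl, neg_zero]
    · simp only [Pi.neg_apply]
      rw [Finset.sum_neg_distrib, h3, neg_zero]

theorem mem_zs {H : AddSubgroup G} {J : Finset (Fin n)} {x : Fin n → G} :
    x ∈ zs H J ↔ (∀ l, x l ∈ H) ∧ (∀ l, l ∉ J → x l = 0) ∧ ∑ l, x l = 0 := Iff.rfl

theorem zs_inj {H : AddSubgroup G} {j : ℕ} (hj : j < n) {x y : Fin n → G}
    (hx : x ∈ zs H (ini n (j + 1))) (hy : y ∈ zs H (ini n (j + 1)))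
    (h : ∀ l : Fin n, l.val < j → x l = y l) : x = y := by
  obtain ⟨h1, h2, h3⟩ := mem_zs.1 hx
  obtain ⟨h4, h5, h6⟩ := mem_zs.1 hy
  have h7 : ∀ l : Fin n, l ≠ ⟨j, hj⟩ → x l - y l = 0 := by
    intro l hl
    rcases lt_trichotomy l.val j with h8 | h8 | h8
    · rw [h l h8, sub_self]
    · exact absurd (Fin.ext h8) hl
    · rw [h2 l (by rw [mem_ini]; omega), h5 l (by rw [mem_ini]; omega), sub_self]
  have h8 : ∑ l, (x l - y l) = x ⟨j, hj⟩ - y ⟨j, hj⟩ :=
    Finset.sum_eq_single _ (fun l _ hl => h7 l hl) (fun h => absurd (Finset.mem_univ _) h)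
  rw [Finset.sum_sub_distrib, h3, h6, sub_zero] at h8
  funext l
  by_cases hl : l = ⟨j, hj⟩
  · rw [hl]
    exact (sub_eq_zero.1 h8.symm)
  · exact sub_eq_zero.1 (h7 l hl)

instance finite_zs (H : AddSubgroup G) [Finite H] (J : Finset (Fin n)) : Finite (zs H J) := by
  refine Finite.of_injective (fun x : zs H J => fun l : Fin n => (⟨x.1 l, x.2.1 l⟩ : H)) ?_
  intro x y hxy
  apply Subtype.ext
  funext l
  exact congrArg Subtype.val (congrFun hxy l)

theorem card_zs_le (H : AddSubgroup G) [Finite H] {j : ℕ} (hj : j < n) :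
    Nat.card (zs H (ini n (j + 1))) ≤ Nat.card H ^ j := by
  have h1 : Nat.card (Fin j → H) = Nat.card H ^ j := by
    rw [Nat.card_fun, Nat.card_eq_fintype_card (α := Fin j), Fintype.card_fin]
  rw [← h1]
  refine Nat.card_le_card_of_injective
    (fun x : zs H (ini n (j + 1)) => fun l : Fin j => (⟨x.1 ⟨l.val, by omega⟩, x.2.1 _⟩ : H)) ?_
  intro x y hxy
  apply Subtype.ext
  refine zs_inj hj x.2 y.2 fun l hl => ?_
  exact congrArg Subtype.val (congrFun hxy ⟨l.val, hl⟩)

theorem sum_dsp (σ : Equiv.Perm (Fin n)) (x : Fin n → G) : ∑ l, dsp σ x l = 0 := by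
  unfold dsp
  simp only [Pi.sub_apply, Function.comp_apply]
  rw [Finset.sum_sub_distrib, Equiv.sum_comp σ x, sub_self]

/-- few translates of the displacements cover the group of the vectors with sum zero -/
theorem cover_zs {A : Finset (Fin n → G)} (hA : Sym A) (hne : A.Nonempty) (H : AddSubgroup G)
    [Finite H] {j : ℕ} (hj : j < n) (z : Fin n) {β : ℝ}
    (h : (Nat.card H : ℝ) ^ j * (A.image (rho H z)).card ≤
      β * (A.image (dsp (Fin.cycleRange ⟨j, hj⟩))).card) :
    ∃ F : Finset (Fin n → G), (F.card : ℝ) ≤ β ∧ ∀ p ∈ zs H (ini n (j + 1)), ∃ x ∈ F,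
      ∃ u ∈ 2 • A, ∃ v ∈ 2 • A, p = x + (u - v) := by
  set σ := Fin.cycleRange ⟨j, hj⟩ with hσ
  set V := A.image (dsp σ) with hV
  have hVne : V.Nonempty := hne.image _
  set μ : (Fin n → G) → (Fin n → G ⧸ H) := fun x c => ((x c : G) : G ⧸ H) with hμ
  -- few classes
  have h1 : (V.image μ).card ≤ (A.image (rho H z)).card := by
    have h2 : V.image μ ⊆ (A.image (rho H z)).image (fun y c => y c - y (σ c)) := by
      intro w hw
      obtain ⟨v, hv, rfl⟩ := Finset.mem_image.1 hw
      obtain ⟨x, hx, rfl⟩ := Finset.mem_image.1 hv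
      refine Finset.mem_image.2 ⟨_, Finset.mem_image_of_mem _ hx, ?_⟩
      funext c
      simp only [hμ, rho_apply, dsp, Pi.sub_apply, Function.comp_apply]
      rw [← QuotientAddGroup.mk_sub]
      congr 1
      abel
    exact (Finset.card_le_card h2).trans Finset.card_image_le
  obtain ⟨w, hw, hE⟩ := big_fibre V hVne μ
  set E := V.filter fun x => μ x = w with hEdef
  have hEV : E ⊆ V := Finset.filter_subset _ _
  have hEne : E.Nonempty := by
    obtain ⟨v, hv, hvw⟩ := Finset.mem_image.1 hw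
    exact ⟨v, Finset.mem_filter.2 ⟨hv, hvw⟩⟩
  set P : Finset (Fin n → G) := fs (zs H (ini n (j + 1))) with hP
  have hmP : ∀ x, x ∈ P ↔ x ∈ zs H (ini n (j + 1)) := fun x => mem_fs _ x
  obtain ⟨v0, hv0⟩ := hEne
  have hEne : E.Nonempty := ⟨v0, hv0⟩
  -- differences of elements of `E`
  have h2 : ∀ v ∈ E, v - v0 ∈ P := by
    intro v hv
    rw [hmP, mem_zs]
    have hv1 := Finset.mem_filter.1 hv
    have hv2 := Finset.mem_filter.1 hv0
    obtain ⟨x, hx, hxv⟩ := Finset.mem_image.1 hv1.1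
    obtain ⟨y, hy, hyv⟩ := Finset.mem_image.1 hv2.1
    refine ⟨fun l => ?_, fun l hl => ?_, ?_⟩
    · have h3 : μ v l = μ v0 l := by rw [hv1.2, hv2.2]
      simp only [hμ] at h3
      rw [eq_comm, QuotientAddGroup.eq, neg_add_eq_sub] at h3
      exact h3
    · rw [mem_ini] at hl
      have h3 : σ l = l := by
        rw [hσ]
        apply Fin.cycleRange_of_gt
        rw [Fin.lt_def]
        simp only
        omega
      rw [Pi.sub_apply, ← hxv, ← hyv]
      simp only [dsp, Pi.sub_apply, Function.comp_apply]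
      rw [h3, sub_self, sub_self, sub_self]
    · simp only [Pi.sub_apply]
      rw [Finset.sum_sub_distrib, ← hxv, ← hyv, sum_dsp, sum_dsp, sub_self]
  have h3 : (P + E).card ≤ P.card := by
    refine Finset.card_le_card_of_injOn (fun x => x - v0) ?_ (fun x _ y _ h => sub_left_injective h)
    intro x hx
    obtain ⟨p, hp, e, he, rfl⟩ := Finset.mem_add.1 (Finset.mem_coe.1 hx)
    rw [Finset.mem_coe, hmP]
    have e1 : p + e - v0 = p + (e - v0) := by abel
    show p + e - v0 ∈ _
    rw [e1]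
    exact AddSubgroup.add_mem _ ((hmP p).1 hp) ((hmP _).1 (h2 e he))
  have hEpos : (0 : ℝ) < E.card := by exact_mod_cast hEne.card_pos
  have hVpos : (0 : ℝ) < V.card := by exact_mod_cast hVne.card_pos
  have hipos : (0 : ℝ) < (A.image (rho H z)).card := by exact_mod_cast (hne.image _).card_pos
  have h4 : (V.card : ℝ) ≤ (A.image (rho H z)).card * E.card := by
    have h5 : V.card ≤ (A.image (rho H z)).card * E.card :=
      hE.trans (Nat.mul_le_mul_right _ h1)
    exact_mod_cast h5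
  have hβ : 0 ≤ β := by
    by_contra hcon
    push Not at hcon
    have h5 : β * (V.card : ℝ) < 0 := mul_neg_of_neg_of_pos hcon hVpos
    have h6 : (0 : ℝ) ≤ (Nat.card H : ℝ) ^ j * (A.image (rho H z)).card := by positivity
    linarith
  have h5 : ((P + E).card : ℝ) ≤ β * E.card := by
    have h6 : ((P + E).card : ℝ) ≤ (Nat.card H : ℝ) ^ j := by
      have h7 : (P + E).card ≤ Nat.card H ^ j := by
        refine h3.trans ?_
        rw [hP, card_fs]
        exact card_zs_le H hj
      exact_mod_cast h7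
    have h7 : (Nat.card H : ℝ) ^ j * (A.image (rho H z)).card ≤ β * E.card * (A.image (rho H z)).card := by
      calc _ ≤ β * (V.card : ℝ) := h
        _ ≤ β * ((A.image (rho H z)).card * E.card) := mul_le_mul_of_nonneg_left h4 hβ
        _ = _ := by ring
    exact h6.trans (le_of_mul_le_mul_right h7 hipos)
  obtain ⟨F, -, hF, hcov⟩ := cover hEne h5
  refine ⟨F, hF, fun p hp => ?_⟩
  obtain ⟨x, hx, y, hy, y', hy', rfl⟩ := hcov p ((hmP p).2 hp)
  obtain ⟨a, ha, rfl⟩ := Finset.mem_image.1 (hEV hy)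
  obtain ⟨b, hb, rfl⟩ := Finset.mem_image.1 (hEV hy')
  refine ⟨x, hx, a + b ∘ σ, ?_, a ∘ σ + b, ?_, ?_⟩
  · rw [two_nsmul]
    exact Finset.add_mem_add ha (hA σ b hb)
  · rw [two_nsmul]
    exact Finset.add_mem_add (hA σ a ha) hb
  · unfold dsp
    abel

theorem sym_nsmul {A : Finset (Fin n → G)} (hA : Sym A) (σ : Equiv.Perm (Fin n)) (k : ℕ) :
    ∀ x ∈ k • A, x ∘ σ ∈ k • A := by
  induction k with
  | zero =>
    intro x hx
    rw [zero_nsmul, Finset.mem_zero] at hx ⊢
    subst hx
    rfl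
  | succ k ih =>
    intro x hx
    rw [succ_nsmul] at hx ⊢
    obtain ⟨y, hy, a, ha, rfl⟩ := Finset.mem_add.1 hx
    exact Finset.mem_add.2 ⟨y ∘ σ, ih y hy, a ∘ σ, hA σ a ha, rfl⟩

/-- all vectors with coordinates in `H` and sum zero -/
theorem cover_all {A : Finset (Fin n → G)} (hA : Sym A) (hne : A.Nonempty) (H : AddSubgroup G)
    [Finite H] {j : ℕ} (hj : j < n) (hj2 : n ≤ 2 * j + 1) (z : Fin n) {β : ℝ}
    (h : (Nat.card H : ℝ) ^ j * (A.image (rho H z)).card ≤
      β * (A.image (dsp (Fin.cycleRange ⟨j, hj⟩))).card) :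
    ∃ F : Finset (Fin n → G), (F.card : ℝ) ≤ β ^ 2 ∧ ∀ p ∈ zs H (Finset.univ : Finset (Fin n)),
      ∃ x ∈ F, ∃ u ∈ 4 • A, ∃ v ∈ 4 • A, p = x + (u - v) := by
  obtain ⟨F, hF, hcov⟩ := cover_zs hA hne H hj z h
  refine ⟨F + F.image (fun x => x ∘ Fin.revPerm), ?_, ?_⟩
  · have h1 : (F + F.image (fun x => x ∘ Fin.revPerm)).card ≤ F.card * F.card :=
      Finset.card_add_le.trans (Nat.mul_le_mul_left _ Finset.card_image_le)
    have h2 : ((F + F.image (fun x => x ∘ Fin.revPerm)).card : ℝ) ≤ F.card * F.card := by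
      exact_mod_cast h1
    refine h2.trans ?_
    rw [pow_two]
    exact mul_le_mul hF hF (Nat.cast_nonneg _) ((Nat.cast_nonneg _).trans hF)
  · intro p hp
    obtain ⟨hp1, -, hp3⟩ := mem_zs.1 hp
    set J : Fin n := ⟨j, hj⟩ with hJ
    -- the first part
    set u : Fin n → G := fun l => if l.val < j then p l else
      if l = J then -∑ i ∈ Finset.univ.filter (fun i : Fin n => i.val < j), p i else 0 with hu
    have hu1 : u ∈ zs H (ini n (j + 1)) := by
      rw [mem_zs]
      refine ⟨fun l => ?_, fun l hl => ?_, ?_⟩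
      · simp only [hu]
        split_ifs
        · exact hp1 l
        · exact H.neg_mem (H.sum_mem fun i _ => hp1 i)
        · exact H.zero_mem
      · rw [mem_ini] at hl
        simp only [hu]
        rw [if_neg (by omega), if_neg]
        intro h
        rw [h, hJ] at hl
        simp at hl
      · simp only [hu]
        rw [Finset.sum_ite, Finset.sum_ite_eq_of_mem']
        · abel
        · rw [Finset.mem_filter]
          exact ⟨Finset.mem_univ _, by simp [hJ]⟩
    have hu2 : (p - u) ∘ Fin.revPerm ∈ zs H (ini n (j + 1)) := by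
      rw [mem_zs]
      refine ⟨fun l => ?_, fun l hl => ?_, ?_⟩
      · exact H.sub_mem (hp1 _) (hu1.1 _)
      · rw [mem_ini] at hl
        rw [Function.comp_apply, Pi.sub_apply]
        have h1 : (Fin.revPerm l).val < j := by
          rw [Fin.revPerm_apply, Fin.val_rev]
          have := l.2
          omega
        simp only [hu]
        rw [if_pos h1, sub_self]
      · have h1 : ∑ l, ((p - u) ∘ Fin.revPerm) l = ∑ l, (p - u) l :=
          Equiv.sum_comp Fin.revPerm (p - u)
        rw [h1]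
        simp only [Pi.sub_apply]
        rw [Finset.sum_sub_distrib, hp3, hu1.2.2, sub_self]
    obtain ⟨x, hx, a, ha, b, hb, e1⟩ := hcov u hu1
    obtain ⟨x', hx', a', ha', b', hb', e2⟩ := hcov _ hu2
    refine ⟨x + x' ∘ Fin.revPerm, Finset.add_mem_add hx (Finset.mem_image_of_mem _ hx'),
      a + a' ∘ Fin.revPerm, ?_, b + b' ∘ Fin.revPerm, ?_, ?_⟩
    · exact mem_add_nsmul ha (sym_nsmul hA _ _ _ ha')
    · exact mem_add_nsmul hb (sym_nsmul hA _ _ _ hb')
    · have e3 : p - u = x' ∘ Fin.revPerm + (a' ∘ Fin.revPerm - b' ∘ Fin.revPerm) := by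
        funext l
        have h1 := congrFun e2 (Fin.revPerm l)
        simp only [Function.comp_apply, Pi.sub_apply, Pi.add_apply, Fin.revPerm_apply, Fin.rev_rev] at h1 ⊢
        exact h1
      have e4 : p = u + (p - u) := by abel
      rw [e4, e3, e1]
      abel

end Pool.Agent.V5helper28.PI
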