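import Pool.Agent.N149.Tow.St99
import Pool.Agent.N149.Tow.Dil
import Pool.Agent.N149.Tow.Fl
import Pool.Agent.N149.Tow.Sel
import Pool.Agent.H137R2.Weak.SetForm

set_option autoImplicit false
set_option linter.unusedSectionVars false
set_option linter.unusedVariables false

/-!
# Permutation-invariant sets of vectors: entropies of the coordinates
-/

open scoped Classical Pointwise

namespace Pool.Agent.V5helper28.PI

open H137.PFR H137.TwoPow H137.Weak N149.Tow

variable {G : Type*} [AddCommGroup G] {n : ℕ}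

/-- vectors with coordinates in given subgroups -/
def box (P : Fin n → AddSubgroup G) : AddSubgroup (Fin n → G) := AddSubgroup.pi Set.univ P

theorem mem_box {P : Fin n → AddSubgroup G} {x : Fin n → G} : x ∈ box P ↔ ∀ i, x i ∈ P i := by
  simp [box, AddSubgroup.mem_pi]

theorem box_mono {P Q : Fin n → AddSubgroup G} (h : ∀ i, P i ≤ Q i) : box P ≤ box Q :=
  fun x hx => mem_box.2 fun i => h i (mem_box.1 hx i)

/-- permutation-invariant sets -/
def Sym (A : Finset (Fin n → G)) : Prop := ∀ σ : Equiv.Perm (Fin n), ∀ x ∈ A, x ∘ σ ∈ A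

/-- the action of a permutation on a symmetric set -/
noncomputable def permE {A : Finset (Fin n → G)} (hA : Sym A) (σ : Equiv.Perm (Fin n)) : A ≃ A where
  toFun x := ⟨x.1 ∘ σ, hA σ x.1 x.2⟩
  invFun x := ⟨x.1 ∘ σ.symm, hA σ.symm x.1 x.2⟩
  left_inv x := by
    apply Subtype.ext
    funext i
    simp
  right_inv x := by
    apply Subtype.ext
    funext i
    simp

/-- entropy of `A` modulo a subgroup -/
noncomputable def hb (A : Finset (Fin n → G)) (N : AddSubgroup (Fin n → G)) : ℝ :=
  hh (uw A) (fun ω : A => (ω : Fin n → G)) N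

/-- doubling of `A` modulo a subgroup -/
noncomputable def kb (A : Finset (Fin n → G)) (N : AddSubgroup (Fin n → G)) : ℝ :=
  kk (uw A) (fun ω : A => (ω : Fin n → G)) N

theorem hb_perm {A : Finset (Fin n → G)} (hA : Sym A) (σ : Equiv.Perm (Fin n))
    (P : Fin n → AddSubgroup G) : hb A (box fun i => P (σ i)) = hb A (box P) := by
  unfold hb hh
  rw [Hg_equiv (w' := uw A) (permE hA σ) (fun _ => rfl)]
  refine Hg_congr fun ω ω' => ?_
  rw [QuotientAddGroup.eq, QuotientAddGroup.eq, mem_box, mem_box]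
  constructor
  · intro h i
    have := h (σ.symm i)
    simpa [permE] using this
  · intro h i
    exact h (σ i)

/-- `⊥` before the place `i`, `H` at the place `i`, `⊤` after it -/
def lev (H : AddSubgroup G) (i : ℕ) (l : Fin n) : AddSubgroup G :=
  if l.val < i then ⊥ else if l.val = i then H else ⊤

theorem lev_succ (i : ℕ) : lev (n := n) (⊤ : AddSubgroup G) (i + 1) = lev ⊥ i := by
  funext l
  unfold lev
  rcases lt_trichotomy l.val i with h | h | h
  · rw [if_pos h, if_pos (by omega)]
  · rw [if_pos (by omega), if_neg (by omega), if_pos h]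
  · rw [if_neg (by omega), if_neg (by omega : ¬ l.val < i), if_neg (by omega : ¬ l.val = i)]
    split_ifs <;> rfl

theorem lev_mono {H H' : AddSubgroup G} (h : H ≤ H') (i : ℕ) (l : Fin n) :
    lev H i l ≤ lev H' i l := by
  unfold lev
  split_ifs
  exacts [le_refl _, h, le_refl _]

theorem mem_lev {H : AddSubgroup G} {i : ℕ} {x : Fin n → G} :
    x ∈ box (lev H i) ↔ (∀ l : Fin n, l.val < i → x l = 0) ∧ ∀ l : Fin n, l.val = i → x l ∈ H := by
  rw [mem_box]
  constructor
  · intro h
    refine ⟨fun l hl => ?_, fun l hl => ?_⟩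
    · have := h l
      rwa [lev, if_pos hl, AddSubgroup.mem_bot] at this
    · have := h l
      rwa [lev, if_neg (by omega), if_pos hl] at this
  · rintro ⟨h1, h2⟩ l
    unfold lev
    split_ifs with h3 h4
    · exact AddSubgroup.mem_bot.2 (h1 l h3)
    · exact h2 l h4
    · exact AddSubgroup.mem_top _

/-- conditioning on more coordinates -/
theorem mono_lev {A : Finset (Fin n → G)} (hA : Sym A) (hne : A.Nonempty) (H : AddSubgroup G)
    {i j : ℕ} (hij : i ≤ j) (hj : j < n) :
    hb A (box (lev ⊥ j)) - hb A (box (lev H j)) ≤ hb A (box (lev ⊥ i)) - hb A (box (lev H i)) := by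
  have hw := law_uw hne
  set I : Fin n := ⟨i, by omega⟩ with hI
  set J : Fin n := ⟨j, hj⟩ with hJ
  set σ : Equiv.Perm (Fin n) := Equiv.swap I J with hσ
  have e1 := hb_perm hA σ (lev ⊥ i)
  have e2 := hb_perm hA σ (lev H i)
  rw [← e1, ← e2]
  have hsub := hh_inf_sup hw (fun ω : A => (ω : Fin n → G)) (box (lev H j))
    (box fun l => lev (⊥ : AddSubgroup G) i (σ l))
  have f1 : hb A (box (lev ⊥ j)) ≤ hb A (box (lev H j) ⊓ box fun l => lev (⊥ : AddSubgroup G) i (σ l)) := by
    refine hh_anti hw _ ?_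
    rintro x ⟨h1, h2⟩
    have h1' := mem_lev.1 h1
    have h2' := mem_box.1 h2
    refine mem_lev.2 ⟨h1'.1, fun l hl => ?_⟩
    have h3 := h2' l
    have hlJ : l = J := Fin.ext hl
    have e : σ l = I := by rw [hσ, hlJ, Equiv.swap_apply_right]
    rw [e] at h3
    unfold lev at h3
    rw [if_neg (by simp [hI]), if_pos (by simp [hI])] at h3
    exact h3
  have f2 : hb A (box fun l => lev H i (σ l)) ≤ hb A (box (lev H j) ⊔ box fun l => lev (⊥ : AddSubgroup G) i (σ l)) := by
    refine hh_anti hw _ (sup_le ?_ (box_mono fun l => lev_mono bot_le i (σ l)))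
    intro x hx
    have hx' := mem_lev.1 hx
    refine mem_box.2 fun l => ?_
    unfold lev
    split_ifs with h3 h4
    · -- `σ l < i`
      by_cases h5 : l = I
      · rw [h5, hσ, Equiv.swap_apply_left] at h3
        simp only [hJ] at h3
        omega
      · by_cases h6 : l = J
        · rw [h6, hσ, Equiv.swap_apply_right] at h3
          simp only [hI] at h3
          omega
        · rw [hσ, Equiv.swap_apply_of_ne_of_ne h5 h6] at h3
          exact AddSubgroup.mem_bot.2 (hx'.1 l (by omega))
    · by_cases h6 : l = J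
      · exact hx'.2 l (by rw [h6])
      · have h7 : σ l = I := Fin.ext h4
        have h8 : l = σ.symm I := by rw [← h7, Equiv.symm_apply_apply]
        rw [hσ, Equiv.symm_swap, Equiv.swap_apply_left] at h8
        exact absurd h8 h6
    · exact AddSubgroup.mem_top _
  unfold hb at f1 f2 ⊢
  linarith

/-- the subgroup given by the 99 per cent theorem -/
theorem stage {A : Finset (Fin n → G)} (hne : A.Nonempty) [Finite G] {j : ℕ} (hj : j < n) {a : ℝ}
    (ha : kb A (box (lev ⊥ j)) - kb A (box (lev ⊤ j)) ≤ a) (ha' : a ≤ 1 / 40000000) :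
    ∃ H : AddSubgroup G, hb A (box (lev H j)) - hb A (box (lev ⊤ j)) ≤ 218 * a ∧
      Real.log (Nat.card H) ≤ hb A (box (lev ⊥ j)) - hb A (box (lev H j)) + 218 * a := by
  have hw := law_uw hne
  set J : Fin n := ⟨j, hj⟩ with hJ
  have hle : box (lev (n := n) (⊥ : AddSubgroup G) j) ≤ box (lev ⊤ j) :=
    box_mono fun l => lev_mono bot_le j l
  obtain ⟨N', h1, h2, h3⟩ := stage_pair_99 hw (fun ω : A => (ω : Fin n → G)) hle
    (AddSubgroup.index_ne_zero_of_finite) (ha.trans ha')
  set ev : (Fin n → G) →+ G := Pi.evalAddMonoidHom (fun _ => G) J with hev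
  set H : AddSubgroup G := N'.map ev with hH
  have hN' : N' = box (lev H j) := by
    ext x
    rw [mem_lev]
    constructor
    · intro hx
      refine ⟨(mem_lev.1 (h2 hx)).1, fun l hl => ?_⟩
      have hlJ : l = J := Fin.ext hl
      rw [hlJ]
      exact AddSubgroup.mem_map.2 ⟨x, hx, rfl⟩
    · rintro ⟨hx1, hx2⟩
      obtain ⟨y, hy, hyx⟩ := AddSubgroup.mem_map.1 (hx2 J rfl)
      have hyx' : y J = x J := hyx
      have h4 : x - y ∈ N' := by
        refine h1 (mem_lev.2 ⟨fun l hl => ?_, fun l hl => ?_⟩)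
        · rw [Pi.sub_apply, hx1 l hl, (mem_lev.1 (h2 hy)).1 l hl, sub_zero]
        · have hlJ : l = J := Fin.ext hl
          rw [hlJ, Pi.sub_apply, hyx', sub_self]
          exact AddSubgroup.zero_mem _
      have h5 : x = (x - y) + y := by abel
      rw [h5]
      exact N'.add_mem h4 hy
  have hcard : (box (lev (n := n) (⊥ : AddSubgroup G) j)).relIndex N' = Nat.card H := by
    rw [hH, ← AddSubgroup.relIndex_ker]
    unfold AddSubgroup.relIndex
    congr 1
    ext x
    rw [AddSubgroup.mem_addSubgroupOf, AddSubgroup.mem_addSubgroupOf, AddMonoidHom.mem_ker, mem_lev]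
    constructor
    · intro h
      have := h.2 J rfl
      rwa [AddSubgroup.mem_bot] at this
    · intro h
      refine ⟨(mem_lev.1 (h2 x.2)).1, fun l hl => ?_⟩
      have hlJ : l = J := Fin.ext hl
      rw [hlJ]
      exact AddSubgroup.mem_bot.2 h
  have h4 : hh (uw A) (fun ω : A => (ω : Fin n → G)) (box (lev ⊥ j)) ≤
      hh (uw A) (fun ω : A => (ω : Fin n → G)) N' + Real.log (Nat.card H) := by
    rw [← hcard]
    exact hh_le_add_log hw _ h1 (AddSubgroup.index_ne_zero_of_finite)
  have h5 := hh_anti hw (fun ω : A => (ω : Fin n → G)) h2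
  rw [hcard] at h3
  unfold kb at ha
  refine ⟨H, ?_, ?_⟩
  · rw [← hN']
    unfold hb
    linarith
  · rw [← hN']
    unfold hb
    linarith

/-- a place in the second half where the doubling increases by little -/
theorem exists_cheap {A : Finset (Fin n → G)} (hne : A.Nonempty) {K : ℝ} (hK1 : 1 ≤ K)
    (hK : kap (uw A) (fun ω : A => (ω : Fin n → G)) ≤ 2 * Real.log K) (hn : 12 ≤ n) :
    ∃ j : ℕ, n ≤ 2 * j ∧ j + 1 < n ∧
      kb A (box (lev ⊥ j)) - kb A (box (lev ⊤ j)) ≤ 6 * Real.log K / n := by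
  have hw := law_uw hne
  by_contra hcon
  push Not at hcon
  set g : ℕ → ℝ := fun i => kb A (box (lev ⊤ i)) with hg
  have hg1 : ∀ i, g (i + 1) = kb A (box (lev ⊥ i)) := fun i => by rw [hg]; simp only [lev_succ]
  obtain ⟨b, hb⟩ : ∃ b : ℕ, b = (n + 1) / 2 := ⟨_, rfl⟩
  obtain ⟨m, hm⟩ : ∃ m : ℕ, m = (n - 1) - b := ⟨_, rfl⟩
  have hsum := Finset.sum_range_sub (fun i => g (b + i)) m
  have h1 : ∑ i ∈ Finset.range m, (6 * Real.log K / n) <
      ∑ i ∈ Finset.range m, (g (b + (i + 1)) - g (b + i)) := by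
    refine Finset.sum_lt_sum_of_nonempty ⟨0, Finset.mem_range.2 (by omega)⟩ fun i hi => ?_
    rw [Finset.mem_range] at hi
    have := hcon (b + i) (by omega) (by omega)
    rw [← hg1] at this
    exact this
  rw [Finset.sum_const, Finset.card_range, nsmul_eq_mul, hsum] at h1
  have h2 : g (b + m) ≤ 2 * Real.log K := (kk_le hw _ _).trans hK
  have h3 : 0 ≤ g (b + 0) := kk_nonneg hw _ _
  have hlog : 0 ≤ Real.log K := Real.log_nonneg hK1
  have h4 : (n : ℝ) ≤ 3 * m := by
    have : n ≤ 3 * m := by omega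
    exact_mod_cast this
  have hn0 : (0 : ℝ) < n := by
    have : 0 < n := by omega
    exact_mod_cast this
  have h5 : 2 * Real.log K ≤ m * (6 * Real.log K / n) := by
    rw [mul_div_assoc', le_div_iff₀ hn0]
    nlinarith
  linarith

end Pool.Agent.V5helper28.PI
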