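import Pool.Agent.V5helper28.PI.Ent

set_option autoImplicit false
set_option linter.unusedSectionVars false
set_option linter.unusedVariables false

/-!
# Permutation-invariant sets of vectors: consequences of the entropy inequalities
-/

open scoped Classical Pointwise

namespace Pool.Agent.V5helper28.PI

open H137.PFR H137.TwoPow H137.Weak N149.Tow

variable {G : Type*} [AddCommGroup G] {n : ℕ}

theorem sum_lev {A : Finset (Fin n → G)} (hA : Sym A) (hne : A.Nonempty) (H : AddSubgroup G)
    {j : ℕ} (hj : j < n) {c : ℝ} (h : c ≤ hb A (box (lev ⊥ j)) - hb A (box (lev H j))) :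
    ∀ i ≤ j, i * c ≤ hb A (box (lev ⊥ i)) - hb A (box (lev ⊥ 0)) := by
  have hw := law_uw hne
  intro i
  induction i with
  | zero => intro _; simp
  | succ i ih =>
    intro hi
    have h1 := ih (by omega)
    have h2 := mono_lev hA hne H hi hj
    have h3 : hb A (box (lev ⊤ (i + 1))) ≤ hb A (box (lev H (i + 1))) :=
      hh_anti hw _ (box_mono fun l => lev_mono le_top (i + 1) l)
    rw [lev_succ] at h3
    push_cast
    linarith

/-- the displacement of a vector by a permutation -/
def dsp (σ : Equiv.Perm (Fin n)) (x : Fin n → G) : Fin n → G := x - x ∘ σ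

theorem card_dsp {A : Finset (Fin n → G)} (hne : A.Nonempty) (J : Fin n) :
    hb A (box (lev ⊥ J.val)) - hb A (box (lev ⊥ 0)) ≤
      Real.log (A.image (dsp J.cycleRange)).card := by
  have hw := law_uw hne
  have h1 : Hg (uw A) (fun ω : A => dsp J.cycleRange (ω : Fin n → G)) ≤
      Real.log (A.image (dsp J.cycleRange)).card :=
    Hg_le_log_card hw _ _ fun ω => Finset.mem_image_of_mem _ ω.2
  have h2 : hb A (box (lev ⊥ J.val)) ≤
      Hg (uw A) (fun ω : A => dsp J.cycleRange (ω : Fin n → G)) + hb A (box (lev ⊥ 0)) := by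
    refine Hg_add_of hw fun ω ω' h3 h4 => ?_
    rw [QuotientAddGroup.eq, mem_lev] at h4 ⊢
    have key : ∀ i : ℕ, ∀ l : Fin n, l.val = i → i ≤ J.val → (ω : Fin n → G) l = (ω' : Fin n → G) l := by
      intro i
      induction i with
      | zero =>
        intro l hl _
        have h5 := h4.2 l hl
        rw [AddSubgroup.mem_bot] at h5
        have h6 : -(ω : Fin n → G) l + (ω' : Fin n → G) l = 0 := h5
        exact neg_add_eq_zero.1 h6
      | succ i ih =>
        intro l hl hi
        have hlt := l.2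
        set m : Fin n := ⟨i, by omega⟩ with hm
        have h5 := ih m rfl (by omega)
        have h6 : m < J := by
          rw [Fin.lt_def]
          simp only [hm]
          omega
        have h7 : J.cycleRange m = l := by
          apply Fin.ext
          rw [Fin.coe_cycleRange_of_lt h6, hl]
        have h8 := congrFun h3 m
        unfold dsp at h8
        rw [Pi.sub_apply, Pi.sub_apply, Function.comp_apply, Function.comp_apply, h7, h5] at h8
        exact sub_right_injective h8
    refine ⟨fun l hl => ?_, fun l hl => ?_⟩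
    · have := key l.val l rfl hl.le
      change -(ω : Fin n → G) l + (ω' : Fin n → G) l = 0
      rw [this, neg_add_cancel]
    · have := key l.val l rfl hl.le
      rw [AddSubgroup.mem_bot]
      change -(ω : Fin n → G) l + (ω' : Fin n → G) l = 0
      rw [this, neg_add_cancel]
  linarith

/-- two coordinates are seldom different modulo `H` -/
theorem pair_aux {A : Finset (Fin n → G)} (hA : Sym A) (hne : A.Nonempty) (H : AddSubgroup G)
    {j : ℕ} (hj : j + 1 < n) {b : ℝ} (h : hb A (box (lev H j)) - hb A (box (lev ⊤ j)) ≤ b) :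
    ((A.filter fun x => x ⟨j, by omega⟩ - x ⟨j + 1, hj⟩ ∉ H).card : ℝ) ≤ 2 * b * A.card := by
  have hw := law_uw hne
  have hc : (0 : ℝ) < A.card := by exact_mod_cast hne.card_pos
  set J : Fin n := ⟨j, by omega⟩ with hJ
  set J' : Fin n := ⟨j + 1, hj⟩ with hJ'
  set τ : Equiv.Perm (Fin n) := Equiv.swap J J' with hτ
  obtain ⟨S, hS1, hS2⟩ := selection hw
    (fun _ : ℕ => fun ω : A => ((ω : Fin n → G) : (Fin n → G) ⧸ box (lev ⊤ j)))
    (fun _ : ℕ => fun ω : A => ((ω : Fin n → G) : (Fin n → G) ⧸ box (lev H j))) (by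
      intro _ ω ω' h1
      rw [QuotientAddGroup.eq] at h1 ⊢
      exact box_mono (fun l => lev_mono le_top j l) h1) 1
  rw [Finset.sum_range_one] at hS2
  have h1 : Real.exp (-b) ≤ Real.exp (-(Hg (uw A) (fun ω : A => ((ω : Fin n → G) :
      (Fin n → G) ⧸ box (lev H j))) - Hg (uw A) (fun ω : A => ((ω : Fin n → G) :
      (Fin n → G) ⧸ box (lev ⊤ j))))) := by
    apply Real.exp_le_exp.2
    unfold hb hh at h
    linarith
  have h2 : 1 - b ≤ Real.exp (-b) := by
    have := Real.add_one_le_exp (-b)
    linarith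
  have h3 : ∑ ω ∈ S, uw A ω = S.card / A.card := by
    unfold uw
    rw [Finset.sum_const, nsmul_eq_mul, div_eq_mul_inv]
  rw [h3] at hS2
  have h4 : (1 - b) * A.card ≤ S.card := by
    rw [← le_div_iff₀ hc]
    linarith
  have h5 : (Sᶜ.card : ℝ) ≤ b * A.card := by
    have h6 : (S.card : ℝ) + Sᶜ.card = A.card := by
      have := Finset.card_add_card_compl S
      rw [Fintype.card_coe] at this
      exact_mod_cast this
    linarith
  have h6 : (A.filter fun x => x J - x J' ∉ H).card ≤ (Sᶜ ∪ Sᶜ.image (permE hA τ).symm).card := by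
    refine Finset.card_le_card_of_surjOn (fun ω : A => (ω : Fin n → G)) ?_
    intro x hx
    rw [Finset.mem_coe, Finset.mem_filter] at hx
    refine ⟨⟨x, hx.1⟩, ?_, rfl⟩
    rw [Finset.mem_coe, Finset.mem_union]
    by_contra hcon
    push Not at hcon
    obtain ⟨h7, h8⟩ := hcon
    rw [Finset.mem_compl, not_not] at h7
    have h9 : permE hA τ ⟨x, hx.1⟩ ∈ S := by
      by_contra h9
      apply h8
      rw [Finset.mem_image]
      exact ⟨permE hA τ ⟨x, hx.1⟩, Finset.mem_compl.2 h9, Equiv.symm_apply_apply _ _⟩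
    have h10 := hS1 0 (by norm_num) _ h7 _ h9 (by
      rw [QuotientAddGroup.eq, mem_lev]
      refine ⟨fun l hl => ?_, fun l _ => AddSubgroup.mem_top _⟩
      change -x l + x (τ l) = 0
      rw [hτ, Equiv.swap_apply_of_ne_of_ne, neg_add_cancel]
      · intro h; rw [h] at hl; simp [hJ] at hl
      · intro h; rw [h] at hl; simp only [hJ'] at hl; omega)
    rw [QuotientAddGroup.eq, mem_lev] at h10
    have h11 := h10.2 J rfl
    have h12 : -x J + x (τ J) ∈ H := h11
    rw [hτ, Equiv.swap_apply_left] at h12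
    apply hx.2
    have h13 : x J - x J' = -(-x J + x J') := by abel
    rw [h13]
    exact H.neg_mem h12
  have h7 : (Sᶜ ∪ Sᶜ.image (permE hA τ).symm).card ≤ Sᶜ.card + Sᶜ.card :=
    (Finset.card_union_le _ _).trans (Nat.add_le_add_left Finset.card_image_le _)
  have h8 : ((A.filter fun x => x J - x J' ∉ H).card : ℝ) ≤ Sᶜ.card + Sᶜ.card := by
    exact_mod_cast h6.trans h7
  linarith

theorem exists_perm {a b c d : Fin n} (hab : a ≠ b) (hcd : c ≠ d) :
    ∃ σ : Equiv.Perm (Fin n), σ a = c ∧ σ b = d := by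
  set τ := Equiv.swap a c with hτ
  have h1 : τ a = c := Equiv.swap_apply_left _ _
  have h2 : τ b ≠ c := fun h => hab (τ.injective (h1.trans h.symm))
  refine ⟨τ.trans (Equiv.swap (τ b) d), ?_, ?_⟩
  · rw [Equiv.trans_apply, h1, Equiv.swap_apply_of_ne_of_ne h2.symm hcd]
  · rw [Equiv.trans_apply, Equiv.swap_apply_left]

theorem pair {A : Finset (Fin n → G)} (hA : Sym A) (hne : A.Nonempty) (H : AddSubgroup G)
    {j : ℕ} (hj : j + 1 < n) {b : ℝ} (h : hb A (box (lev H j)) - hb A (box (lev ⊤ j)) ≤ b)
    {c d : Fin n} (hcd : c ≠ d) :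
    ((A.filter fun x => x c - x d ∉ H).card : ℝ) ≤ 2 * b * A.card := by
  obtain ⟨σ, h1, h2⟩ := exists_perm (a := (⟨j, by omega⟩ : Fin n)) (b := ⟨j + 1, hj⟩) (by
    intro h
    have := congrArg Fin.val h
    simp at this) hcd
  refine le_trans ?_ (pair_aux hA hne H hj h)
  have h3 : (A.filter fun x => x c - x d ∉ H).card ≤
      (A.filter fun x => x ⟨j, by omega⟩ - x ⟨j + 1, hj⟩ ∉ H).card := by
    refine Finset.card_le_card_of_injOn (fun x => x ∘ σ) ?_ ?_
    · intro x hx
      rw [Finset.mem_coe, Finset.mem_filter] at hx ⊢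
      refine ⟨hA σ x hx.1, ?_⟩
      simp only [Function.comp_apply]
      rw [h1, h2]
      exact hx.2
    · intro x _ y _ hxy
      funext i
      have := congrFun hxy (σ.symm i)
      simpa using this
  exact_mod_cast h3

/-- half of the set consists of vectors which are almost constant modulo `H` -/
theorem half {A : Finset (Fin n → G)} (hA : Sym A) (hne : A.Nonempty) (H : AddSubgroup G)
    {b : ℝ} (hb : ∀ c d : Fin n, c ≠ d → ((A.filter fun x => x c - x d ∉ H).card : ℝ) ≤ b * A.card)
    (hb0 : 0 ≤ b) {s : ℕ} (hs : 2 * b * n < s + 1) (hn : 0 < n) :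
    A.card ≤ 2 * (A.filter fun x => ∃ d : Fin n, (Finset.univ.filter fun c => x c - x d ∉ H).card ≤ s).card := by
  have hc : (0 : ℝ) < A.card := by exact_mod_cast hne.card_pos
  have hn' : (0 : ℝ) < n := by exact_mod_cast hn
  set B := A.filter fun x => ∃ d : Fin n, (Finset.univ.filter fun c => x c - x d ∉ H).card ≤ s with hB
  -- the number of bad triples
  have h1 : ∑ x ∈ A, ∑ d : Fin n, ((Finset.univ.filter fun c => x c - x d ∉ H).card : ℝ) ≤
      n * (n * (b * A.card)) := by
    have h2 : ∑ x ∈ A, ∑ d : Fin n, ((Finset.univ.filter fun c => x c - x d ∉ H).card : ℝ) =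
        ∑ d : Fin n, ∑ c : Fin n, ((A.filter fun x => x c - x d ∉ H).card : ℝ) := by
      rw [Finset.sum_comm]
      refine Finset.sum_congr rfl fun d _ => ?_
      simp only [Finset.card_filter, Nat.cast_sum]
      rw [Finset.sum_comm]
    rw [h2]
    have h3 : ∀ d c : Fin n, ((A.filter fun x => x c - x d ∉ H).card : ℝ) ≤ b * A.card := by
      intro d c
      by_cases hcd : c = d
      · subst hcd
        have : (A.filter fun x => x c - x c ∉ H) = ∅ := by
          rw [Finset.filter_eq_empty_iff]
          intro x _ h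
          rw [sub_self] at h
          exact h H.zero_mem
        rw [this, Finset.card_empty, Nat.cast_zero]
        positivity
      · exact hb c d hcd
    calc ∑ d : Fin n, ∑ c : Fin n, ((A.filter fun x => x c - x d ∉ H).card : ℝ) ≤
        ∑ d : Fin n, ∑ c : Fin n, b * A.card :=
          Finset.sum_le_sum fun d _ => Finset.sum_le_sum fun c _ => h3 d c
      _ = n * (n * (b * A.card)) := by simp
  have h2 : ∀ x ∈ A \ B, (n : ℝ) * (s + 1) ≤
      ∑ d : Fin n, ((Finset.univ.filter fun c => x c - x d ∉ H).card : ℝ) := by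
    intro x hx
    rw [Finset.mem_sdiff, hB, Finset.mem_filter] at hx
    have h3 : ∀ d : Fin n, ((s : ℝ) + 1) ≤ ((Finset.univ.filter fun c => x c - x d ∉ H).card : ℝ) := by
      intro d
      have : ¬ (Finset.univ.filter fun c => x c - x d ∉ H).card ≤ s := fun h => hx.2 ⟨hx.1, d, h⟩
      have h4 : s + 1 ≤ (Finset.univ.filter fun c => x c - x d ∉ H).card := by omega
      exact_mod_cast h4
    calc (n : ℝ) * (s + 1) = ∑ d : Fin n, ((s : ℝ) + 1) := by
          rw [Finset.sum_const, Finset.card_univ, Fintype.card_fin, nsmul_eq_mul]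
      _ ≤ _ := Finset.sum_le_sum fun d _ => h3 d
  have h3 : ((A \ B).card : ℝ) * (n * (s + 1)) ≤ n * (n * (b * A.card)) := by
    calc ((A \ B).card : ℝ) * (n * (s + 1)) = ∑ x ∈ A \ B, (n : ℝ) * (s + 1) := by
          rw [Finset.sum_const, nsmul_eq_mul]
      _ ≤ ∑ x ∈ A \ B, ∑ d : Fin n, ((Finset.univ.filter fun c => x c - x d ∉ H).card : ℝ) :=
          Finset.sum_le_sum h2
      _ ≤ ∑ x ∈ A, ∑ d : Fin n, ((Finset.univ.filter fun c => x c - x d ∉ H).card : ℝ) :=
          Finset.sum_le_sum_of_subset_of_nonneg Finset.sdiff_subset fun _ _ _ =>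
            Finset.sum_nonneg fun _ _ => Nat.cast_nonneg _
      _ ≤ _ := h1
  have hBA : B ⊆ A := Finset.filter_subset _ _
  have h4 : (A \ B).card + B.card = A.card := Finset.card_sdiff_add_card_eq_card hBA
  have h5 : 2 * ((A \ B).card : ℝ) ≤ A.card := by
    by_contra hcon
    push Not at hcon
    have h6 : (A.card : ℝ) * (n * (s + 1)) ≤ 2 * (n * (n * (b * A.card))) := by
      have h7 : (0 : ℝ) ≤ n * (s + 1) := by positivity
      nlinarith
    have h8 : (A.card : ℝ) * n * (s + 1) ≤ (A.card : ℝ) * n * (2 * b * n) := by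
      calc (A.card : ℝ) * n * (s + 1) = (A.card : ℝ) * (n * (s + 1)) := by ring
        _ ≤ 2 * (n * (n * (b * A.card))) := h6
        _ = _ := by ring
    have h9 := le_of_mul_le_mul_left h8 (by positivity)
    linarith
  have h6 : 2 * (A \ B).card ≤ A.card := by exact_mod_cast h5
  omega

end Pool.Agent.V5helper28.PI
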