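import Pool.Agent.V5helper28.PI.Dens

set_option autoImplicit false
set_option linter.unusedSectionVars false
set_option linter.unusedVariables false

/-!
# The theorem for finite groups
-/

open scoped Classical Pointwise

namespace Pool.Agent.V5helper28.PI

open Pool.Agent.R424.EX (card_cov one_le)
open H137.PFR H137.TwoPow H137.Weak N149.Tow

variable {G : Type*} [AddCommGroup G] {n : ℕ}

/-- the conclusion: few cosets of the vectors which are constant modulo `H`, and few translates of
`4 A - 4 A` cover the vectors in `H ^ n` with sum zero -/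
def Str (A : Finset (Fin n → G)) (L : ℝ) (H : AddSubgroup G) : Prop :=
  (∃ T ⊆ A, (T.card : ℝ) ≤ L ∧ ∀ x ∈ A, ∃ t ∈ T, ∀ c d : Fin n, (x c - t c) - (x d - t d) ∈ H) ∧
  (((A : Set (Fin n → G)) + (zs H (Finset.univ : Finset (Fin n)) : Set (Fin n → G))).ncard : ℝ) ≤
    L * A.card

theorem fin_main [Finite G] {A : Finset (Fin n → G)} (hA : Sym A) (hne : A.Nonempty) {K : ℝ}
    (hK : ((A + A).card : ℝ) ≤ K * A.card) (hn : 1000000000 * Real.log (2 * K) ≤ n) :
    ∃ H : AddSubgroup G, Str A ((2 * K) ^ 100000) H := by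
  have hK1 : 1 ≤ K := one_le hne hK
  have hc : (0 : ℝ) < A.card := by exact_mod_cast hne.card_pos
  obtain ⟨κ, hκ⟩ : ∃ κ : ℝ, κ = Real.log (2 * K) := ⟨_, rfl⟩
  have hlogK : 0 ≤ Real.log K := Real.log_nonneg hK1
  have hlog2 : (0.69 : ℝ) ≤ Real.log 2 := by
    have := Real.log_two_gt_d9
    linarith
  have hκ1 : κ = Real.log 2 + Real.log K := by
    rw [hκ, Real.log_mul (by norm_num) (by linarith)]
  have hκ2 : Real.log K ≤ κ := by linarith
  have hκ3 : (0.69 : ℝ) ≤ κ := by linarith
  rw [← hκ] at hn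
  have hnr : (690000000 : ℝ) ≤ n := by linarith
  have hn12 : 690000000 ≤ n := by exact_mod_cast hnr
  have hn0 : (0 : ℝ) < n := by linarith
  have hkap : kap (uw A) (fun ω : A => (ω : Fin n → G)) ≤ 2 * Real.log K :=
    kap_uw hne hK1 (le_of_eq_of_le (card_add_inst _ _ A) hK)
  obtain ⟨j, hj1, hj2, hj3⟩ := exists_cheap hne hK1 hkap (by omega)
  obtain ⟨a, ha⟩ : ∃ a : ℝ, a = 6 * Real.log K / n := ⟨_, rfl⟩
  rw [← ha] at hj3
  have hj : j < n := by omega
  have ha0 : 0 ≤ a := by rw [ha]; positivity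
  have han : a * n = 6 * Real.log K := by rw [ha]; field_simp
  have ha1 : a ≤ 1 / 40000000 := by
    rw [ha, div_le_iff₀ hn0]
    linarith
  obtain ⟨H, hH1, hH2⟩ := stage hne hj hj3 ha1
  refine ⟨H, ?_⟩
  -- pairs
  have hpair : ∀ c d : Fin n, c ≠ d →
      ((A.filter fun x => x c - x d ∉ H).card : ℝ) ≤ (2 * (218 * a)) * A.card :=
    fun c d hcd => pair hA hne H hj2 hH1 hcd
  set s : ℕ := ⌊2 * (2 * (218 * a)) * n⌋₊ with hs
  have hs1 : 2 * (2 * (218 * a)) * n < s + 1 := Nat.lt_floor_add_one _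
  have hs2 : (s : ℝ) ≤ 5232 * κ := by
    have h1 : (s : ℝ) ≤ 2 * (2 * (218 * a)) * n := Nat.floor_le (by positivity)
    have h2 : 2 * (2 * (218 * a)) * (n : ℝ) = 872 * (a * n) := by ring
    rw [h2, han] at h1
    linarith
  have hs3 : 5 * s ≤ n := by
    have : (5 * s : ℝ) ≤ n := by linarith
    exact_mod_cast this
  have hhalf := half hA hne H hpair (by positivity) hs1 (by omega)
  have z : Fin n := ⟨0, by omega⟩
  have hcls := few_classes hA hne hK1 hK H hs3 (by omega) hhalf z
  have hexpK : 2 * K = Real.exp κ := by rw [hκ, Real.exp_log (by linarith)]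
  have hexp : ∀ N : ℕ, (2 * K) ^ N = Real.exp (N * κ) := by
    intro N
    rw [hexpK, ← Real.exp_nat_mul]
  obtain ⟨ρ, hρ⟩ : ∃ ρ : ℝ, ρ = (A.image (rho H z)).card := ⟨_, rfl⟩
  have hρ1 : ρ ≤ Real.exp (41860 * κ) := by
    rw [hρ]
    refine hcls.trans ?_
    have h1 : 4 * K ^ 4 ≤ Real.exp (4 * κ) := by
      have h2 := hexp 4
      push_cast at h2
      rw [← h2, mul_pow]
      have : 0 ≤ K ^ 4 := by positivity
      nlinarith
    have h2 : Real.exp (8 * (s : ℝ)) ≤ Real.exp (41856 * κ) := Real.exp_le_exp.2 (by linarith)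
    calc 4 * K ^ 4 * Real.exp (8 * s) ≤ Real.exp (4 * κ) * Real.exp (41856 * κ) :=
          mul_le_mul h1 h2 (Real.exp_pos _).le (Real.exp_pos _).le
      _ = Real.exp (41860 * κ) := by rw [← Real.exp_add]; congr 1; ring
  have hρ0 : 0 < ρ := by
    rw [hρ]
    exact_mod_cast (hne.image _).card_pos
  constructor
  · -- representatives
    have hrep : ∀ v ∈ A.image (rho H z), ∃ x ∈ A, rho H z x = v := fun v hv => by
      obtain ⟨x, hx, h⟩ := Finset.mem_image.1 hv
      exact ⟨x, hx, h⟩
    choose r hr1 hr2 using hrep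
    refine ⟨(A.image (rho H z)).attach.image fun v => r v.1 v.2, ?_, ?_, ?_⟩
    · intro x hx
      obtain ⟨v, -, rfl⟩ := Finset.mem_image.1 hx
      exact hr1 _ _
    · have h1 : (((A.image (rho H z)).attach.image fun v => r v.1 v.2).card : ℝ) ≤ ρ := by
        rw [hρ]
        have h2 := Finset.card_image_le (s := (A.image (rho H z)).attach) (f := fun v => r v.1 v.2)
        rw [Finset.card_attach] at h2
        exact_mod_cast h2
      refine h1.trans (hρ1.trans ?_)
      rw [hexp]
      apply Real.exp_le_exp.2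
      push_cast
      linarith
    · intro x hx
      have hv := Finset.mem_image_of_mem (rho H z) hx
      refine ⟨r _ hv, Finset.mem_image.2 ⟨⟨_, hv⟩, Finset.mem_attach _ _, rfl⟩, ?_⟩
      exact rho_eq (hr2 _ hv).symm
  · -- displacements
    have hsum := sum_lev hA hne H hj (c := Real.log (Nat.card H) - 218 * a) (by linarith) j le_rfl
    have hdsp := card_dsp hne (⟨j, hj⟩ : Fin n)
    have hV : (0 : ℝ) < (A.image (dsp (Fin.cycleRange ⟨j, hj⟩))).card := by
      exact_mod_cast (hne.image _).card_pos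
    have hHpos : (0 : ℝ) < Nat.card H := by exact_mod_cast Nat.card_pos
    have h1 : (Nat.card H : ℝ) ^ j ≤ Real.exp (1308 * κ) *
        (A.image (dsp (Fin.cycleRange ⟨j, hj⟩))).card := by
      rw [← Real.log_le_log_iff (pow_pos hHpos j) (mul_pos (Real.exp_pos _) hV), Real.log_pow,
        Real.log_mul (Real.exp_pos _).ne' hV.ne', Real.log_exp]
      have h2 : (j : ℝ) * (218 * a) ≤ 1308 * κ := by
        have h3 : (j : ℝ) ≤ n := by exact_mod_cast hj.le
        have h4 : (j : ℝ) * (218 * a) ≤ n * (218 * a) := mul_le_mul_of_nonneg_right h3 (by positivity)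
        have h5 : (n : ℝ) * (218 * a) = 218 * (a * n) := by ring
        rw [h5, han] at h4
        linarith
      have h3 : (j : ℝ) * (Real.log (Nat.card H) - 218 * a) =
          j * Real.log (Nat.card H) - j * (218 * a) := by ring
      simp only at hdsp
      linarith
    have h2 : (Nat.card H : ℝ) ^ j * (A.image (rho H z)).card ≤
        Real.exp (43168 * κ) * (A.image (dsp (Fin.cycleRange ⟨j, hj⟩))).card := by
      rw [← hρ]
      calc (Nat.card H : ℝ) ^ j * ρ ≤ (Real.exp (1308 * κ) *
            (A.image (dsp (Fin.cycleRange ⟨j, hj⟩))).card) * Real.exp (41860 * κ) :=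
            mul_le_mul h1 hρ1 hρ0.le (mul_pos (Real.exp_pos _) hV).le
        _ = (Real.exp (1308 * κ) * Real.exp (41860 * κ)) *
            (A.image (dsp (Fin.cycleRange ⟨j, hj⟩))).card := by ring
        _ = _ := by rw [← Real.exp_add]; congr 2; ring
    obtain ⟨F, hF, hcov⟩ := cover_all hA hne H hj (by omega) z h2
    have hsub : (A : Set (Fin n → G)) + (zs H (Finset.univ : Finset (Fin n)) : Set (Fin n → G)) ⊆
        ((F + (5 • A - 4 • A) : Finset (Fin n → G)) : Set (Fin n → G)) := by
      rintro _ ⟨x, hx, p, hp, rfl⟩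
      obtain ⟨f, hf, u, hu, v, hv, rfl⟩ := hcov p hp
      rw [Finset.mem_coe]
      refine Finset.mem_add.2 ⟨f, hf, (x + u) - v, Finset.sub_mem_sub ?_ hv, ?_⟩
      · have h5 : (5 : ℕ) • A = A + 4 • A := by rw [succ_nsmul']
        rw [h5]
        exact Finset.add_mem_add (Finset.mem_coe.1 hx) hu
      · simp only
        abel
    have h3 := Set.ncard_le_ncard hsub (Finset.finite_toSet _)
    rw [Set.ncard_coe_finset] at h3
    have h4 := card_cov hne hK F 5 4 (U := F + (5 • A - 4 • A)) subset_rfl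
    have h5 : (((A : Set (Fin n → G)) + (zs H (Finset.univ : Finset (Fin n)) :
        Set (Fin n → G))).ncard : ℝ) ≤ F.card * (K ^ (5 + 4) * A.card) := by
      refine le_trans ?_ h4
      exact_mod_cast h3
    refine h5.trans ?_
    have h6 : K ^ (5 + 4) ≤ Real.exp (9 * κ) := by
      have h7 := hexp 9
      push_cast at h7
      rw [← h7]
      exact pow_le_pow_left₀ (by linarith) (by linarith) 9
    have h7 : (Real.exp (43168 * κ)) ^ 2 = Real.exp (86336 * κ) := by
      rw [← Real.exp_nat_mul]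
      congr 1
      push_cast
      ring
    rw [h7] at hF
    calc (F.card : ℝ) * (K ^ (5 + 4) * A.card) ≤
        Real.exp (86336 * κ) * (Real.exp (9 * κ) * A.card) :=
          mul_le_mul hF (mul_le_mul_of_nonneg_right h6 hc.le)
            (mul_nonneg (pow_nonneg (by linarith) _) hc.le) (Real.exp_pos _).le
      _ = Real.exp (86336 * κ + 9 * κ) * A.card := by rw [Real.exp_add]; ring
      _ ≤ (2 * K) ^ 100000 * A.card := by
        rw [hexp]
        refine mul_le_mul_of_nonneg_right (Real.exp_le_exp.2 ?_) hc.le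
        push_cast
        linarith

end Pool.Agent.V5helper28.PI
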