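import Pool.Agent.V5helper28.PI.Fin

set_option autoImplicit false
set_option linter.unusedSectionVars false
set_option linter.unusedVariables false

/-!
# The theorem for all abelian groups
-/

open scoped Classical Pointwise

namespace Pool.Agent.V5helper28.PI

open Pool.Agent.R424.EX (one_le)

universe u

variable {n : ℕ}

/-- reduction of the integer part -/
noncomputable def redq (r q : ℕ) (T : Type*) [AddCommGroup T] :
    (Fin r → ℤ) × T →+ (Fin r → ZMod q) × T where
  toFun x := (fun i => ((x.1 i : ℤ) : ZMod q), x.2)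
  map_zero' := by
    ext <;> simp
  map_add' x y := by
    ext <;> simp

theorem redq_fst {r q : ℕ} {T : Type*} [AddCommGroup T] (x : (Fin r → ℤ) × T) (i : Fin r) :
    (redq r q T x).1 i = ((x.1 i : ℤ) : ZMod q) := rfl

theorem redq_snd {r q : ℕ} {T : Type*} [AddCommGroup T] (x : (Fin r → ℤ) × T) :
    (redq r q T x).2 = x.2 := rfl

/-- coordinatewise application of a homomorphism -/
def cw {G G' : Type*} [AddCommGroup G] [AddCommGroup G'] (φ : G →+ G') (n : ℕ) :
    (Fin n → G) →+ (Fin n → G') where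
  toFun x l := φ (x l)
  map_zero' := by funext l; simp
  map_add' x y := by funext l; simp

theorem cw_apply {G G' : Type*} [AddCommGroup G] [AddCommGroup G'] (φ : G →+ G')
    (x : Fin n → G) (l : Fin n) : cw φ n x l = φ (x l) := rfl

theorem sym_image {G G' : Type*} [AddCommGroup G] [AddCommGroup G'] (φ : G →+ G')
    {A : Finset (Fin n → G)} (hA : Sym A) : Sym (A.image (cw φ n)) := by
  intro σ y hy
  obtain ⟨x, hx, rfl⟩ := Finset.mem_image.1 hy
  exact Finset.mem_image.2 ⟨x ∘ σ, hA σ x hx, rfl⟩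

/-- the elements of the group of vectors with sum zero bound the group -/
theorem card_le_zs {G : Type*} [AddCommGroup G] (H : AddSubgroup G) [Finite H] (hn : 2 ≤ n) :
    Nat.card H ≤ Nat.card (zs H (Finset.univ : Finset (Fin n))) := by
  set a : Fin n := ⟨0, by omega⟩ with ha
  set b : Fin n := ⟨1, by omega⟩ with hb
  have hab : a ≠ b := by
    intro h
    have := congrArg Fin.val h
    simp [ha, hb] at this
  refine Nat.card_le_card_of_injective (fun h : H => (⟨Pi.single a (h : G) - Pi.single b (h : G),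
    ⟨fun l => ?_, fun l hl => absurd (Finset.mem_univ l) hl, ?_⟩⟩ :
      zs H (Finset.univ : Finset (Fin n)))) ?_
  · rw [Pi.sub_apply, Pi.single_apply, Pi.single_apply]
    refine H.sub_mem ?_ ?_
    · split_ifs
      exacts [h.2, H.zero_mem]
    · split_ifs
      exacts [h.2, H.zero_mem]
  · simp only [Pi.sub_apply]
    rw [Finset.sum_sub_distrib, Finset.sum_pi_single', Finset.sum_pi_single']
    simp
  · intro h h' hh
    have h1 := congrFun (congrArg Subtype.val hh) a
    simp only [Pi.sub_apply, Pi.single_eq_same, Pi.single_eq_of_ne hab, sub_zero] at h1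
    exact Subtype.ext h1

/-- `Str` for the image implies `Str` -/
theorem lift_str {G G' : Type*} [AddCommGroup G] [AddCommGroup G'] [Finite G'] (φ : G →+ G')
    {A : Finset (Fin n → G)} {B : Finset (Fin n → G')} (hBA : (B : Set (Fin n → G')) = cw φ n '' A)
    {L : ℝ} (H' : AddSubgroup G') (H : AddSubgroup G) (h1 : ∀ h ∈ H, φ h ∈ H')
    (h2 : ∀ x ∈ A, ∀ y ∈ A, ∀ c d, φ ((x c - y c) - (x d - y d)) ∈ H' →
      (x c - y c) - (x d - y d) ∈ H)
    (h3 : ∀ x ∈ A, ∀ y ∈ A, ∀ l, ∀ h ∈ H, ∀ h' ∈ H, φ (x l + h) = φ (y l + h') →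
      x l + h = y l + h') (hcard : B.card = A.card)
    (hS : Str B L H') : Str A L H := by
  obtain ⟨⟨TB, hTB, hTc, hTcov⟩, hsize⟩ := hS
  rw [hcard] at hsize
  have hmemB : ∀ x ∈ A, cw φ n x ∈ B := fun x hx => by
    rw [← Finset.mem_coe, hBA]
    exact ⟨x, hx, rfl⟩
  constructor
  · have hrep : ∀ v ∈ TB, ∃ x ∈ A, cw φ n x = v := fun v hv => by
      have h4 := hTB hv
      rw [← Finset.mem_coe, hBA] at h4
      obtain ⟨x, hx, h⟩ := h4
      exact ⟨x, hx, h⟩
    choose g hg1 hg2 using hrep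
    refine ⟨TB.attach.image fun v => g v.1 v.2, ?_, ?_, ?_⟩
    · intro x hx
      obtain ⟨v, -, rfl⟩ := Finset.mem_image.1 hx
      exact hg1 _ _
    · have h4 := Finset.card_image_le (s := TB.attach) (f := fun v => g v.1 v.2)
      rw [Finset.card_attach] at h4
      exact le_trans (by exact_mod_cast h4) hTc
    · intro x hx
      obtain ⟨t, ht, h⟩ := hTcov _ (hmemB x hx)
      refine ⟨g t ht, Finset.mem_image.2 ⟨⟨t, ht⟩, Finset.mem_attach _ _, rfl⟩, fun c d => ?_⟩
      have h4 := h c d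
      rw [← hg2 t ht, cw_apply, cw_apply, cw_apply, cw_apply, ← map_sub, ← map_sub, ← map_sub] at h4
      exact h2 x hx _ (hg1 t ht) c d h4
  · refine le_trans ?_ hsize
    have h4 : ((A : Set (Fin n → G)) +
        (zs H (Finset.univ : Finset (Fin n)) : Set (Fin n → G))).ncard ≤
        ((B : Set (Fin n → G')) +
          (zs H' (Finset.univ : Finset (Fin n)) : Set (Fin n → G'))).ncard := by
      refine Set.ncard_le_ncard_of_injOn (cw φ n) ?_ ?_ (Set.toFinite _)
      · rintro _ ⟨x, hx, h, hh, rfl⟩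
        simp only
        rw [map_add]
        refine Set.add_mem_add (Finset.mem_coe.2 (hmemB x (Finset.mem_coe.1 hx)))
          ⟨fun l => h1 _ (hh.1 l), fun l hl => absurd (Finset.mem_univ l) hl, ?_⟩
        have h5 := congrArg φ hh.2.2
        rw [map_sum, map_zero] at h5
        exact h5
      · rintro _ ⟨x, hx, h, hh, rfl⟩ _ ⟨y, hy, h', hh', rfl⟩ hxy
        funext l
        exact h3 x (Finset.mem_coe.1 hx) y (Finset.mem_coe.1 hy) l (h l) (hh.1 l) (h' l) (hh'.1 l)
          (congrFun hxy l)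
    exact_mod_cast h4

/-- a finite model -/
theorem model (r : ℕ) (T : Type u) [AddCommGroup T] [Finite T] (R N : ℕ) :
    ∃ (G' : Type u) (_ : AddCommGroup G') (_ : Finite G') (φ : (Fin r → ℤ) × T →+ G'),
      (∀ x, (∀ i, (x.1 i).natAbs ≤ R) → φ x = 0 → x = 0) ∧
      ∀ H' : AddSubgroup G', Nat.card H' ≤ N → ∃ H : AddSubgroup ((Fin r → ℤ) × T), Finite H ∧
        (∀ h ∈ H, φ h ∈ H' ∧ h.1 = 0) ∧ ∀ x, (∀ i, (x.1 i).natAbs ≤ R) → φ x ∈ H' → x ∈ H := by
  obtain ⟨q, hq1, hq⟩ := Nat.exists_infinite_primes (R + N + 1)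
  have : NeZero q := ⟨hq.ne_zero⟩
  have : Fact q.Prime := ⟨hq⟩
  have hsmall : ∀ z : ℤ, z.natAbs ≤ R → ((z : ℤ) : ZMod q) = 0 → z = 0 := by
    intro z hz h
    have h1 := (ZMod.intCast_zmod_eq_zero_iff_dvd z q).1 h
    refine Int.eq_zero_of_abs_lt_dvd h1 ?_
    have h2 : |z| = (z.natAbs : ℤ) := Int.abs_eq_natAbs z
    rw [h2]
    have : z.natAbs < q := by omega
    exact_mod_cast this
  refine ⟨(Fin r → ZMod q) × T, inferInstance, inferInstance, redq r q T, ?_, ?_⟩
  · intro x hx h
    have h2 : (redq r q T x).2 = 0 := by rw [h]; rfl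
    refine Prod.ext ?_ h2
    funext i
    exact hsmall _ (hx i) (by
      have h3 : (redq r q T x).1 i = 0 := by rw [h]; rfl
      exact h3)
  · intro H' hH'
    have hH'0 : ∀ h ∈ H', h.1 = 0 := by
      intro h hh
      have h1 : Nat.card H' • (⟨h, hh⟩ : H') = 0 := card_nsmul_eq_zero'
      have h2 := congrArg (fun x : H' => (x : (Fin r → ZMod q) × T).1) h1
      funext i
      have h3 : (Nat.card H' • h.1) i = 0 := congrFun h2 i
      rw [Pi.smul_apply, nsmul_eq_mul] at h3
      rcases mul_eq_zero.1 h3 with h4 | h4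
      · have h5 := (ZMod.natCast_eq_zero_iff _ q).1 h4
        have h6 : 0 < Nat.card H' := Nat.card_pos
        exact absurd (Nat.le_of_dvd h6 h5) (by omega)
      · exact h4
    have hmH : ∀ x, x ∈ H'.comap (redq r q T) ⊓ (AddMonoidHom.fst (Fin r → ℤ) T).ker ↔
      redq r q T x ∈ H' ∧ x.1 = 0 := fun x => Iff.rfl
    refine ⟨H'.comap (redq r q T) ⊓ (AddMonoidHom.fst (Fin r → ℤ) T).ker, ?_,
      fun h hh => (hmH h).1 hh, ?_⟩
    · refine Finite.of_injective (fun x : (H'.comap (redq r q T) ⊓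
        (AddMonoidHom.fst (Fin r → ℤ) T).ker : AddSubgroup _) => x.1.2) ?_
      intro x y hxy
      apply Subtype.ext
      refine Prod.ext ?_ hxy
      rw [((hmH _).1 x.2).2, ((hmH _).1 y.2).2]
    · intro x hx h
      rw [hmH]
      refine ⟨h, ?_⟩
      funext i
      exact hsmall _ (hx i) (congrFun (hH'0 _ h) i)

theorem fin_main' {G : Type*} [AddCommGroup G] [inst : DecidableEq G] [Finite G]
    {A : Finset (Fin n → G)} (hA : Sym A) (hne : A.Nonempty) {K : ℝ}
    (hK : ((A + A).card : ℝ) ≤ K * A.card) (hn : 1000000000 * Real.log (2 * K) ≤ n) :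
    ∃ H : AddSubgroup G, Str A ((2 * K) ^ 100000) H := by
  have : inst = fun a b => Classical.propDecidable (a = b) := Subsingleton.elim _ _
  subst this
  exact fin_main hA hne hK hn

theorem two_le {K : ℝ} (hK1 : 1 ≤ K) (hn : 1000000000 * Real.log (2 * K) ≤ n) : 2 ≤ n := by
  have h1 : (0.69 : ℝ) ≤ Real.log (2 * K) := by
    have h2 : Real.log 2 ≤ Real.log (2 * K) := Real.log_le_log (by norm_num) (by linarith)
    have := Real.log_two_gt_d9
    linarith
  have h2 : (2 : ℝ) ≤ n := by linarith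
  exact_mod_cast h2

theorem prod_main (r : ℕ) {T : Type u} [AddCommGroup T] [Finite T]
    {A : Finset (Fin n → (Fin r → ℤ) × T)} (hA : Sym A) (hne : A.Nonempty) {K : ℝ}
    (hK : ((A + A).card : ℝ) ≤ K * A.card) (hn : 1000000000 * Real.log (2 * K) ≤ n) :
    ∃ H : AddSubgroup ((Fin r → ℤ) × T), Finite H ∧ Str A ((2 * K) ^ 100000) H := by
  have hK1 : 1 ≤ K := one_le hne hK
  have hn2 := two_le hK1 hn
  -- a bound
  obtain ⟨R, hR⟩ : ∃ R : ℕ, ∀ x ∈ A, ∀ l i, ((x l).1 i).natAbs ≤ R := by
    refine ⟨∑ x ∈ A, ∑ l, ∑ i, ((x l).1 i).natAbs, fun x hx l i => ?_⟩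
    calc ((x l).1 i).natAbs ≤ ∑ i, ((x l).1 i).natAbs :=
          Finset.single_le_sum (f := fun i => ((x l).1 i).natAbs) (fun _ _ => Nat.zero_le _)
            (Finset.mem_univ i)
      _ ≤ ∑ l, ∑ i, ((x l).1 i).natAbs :=
          Finset.single_le_sum (f := fun l => ∑ i, ((x l).1 i).natAbs) (fun _ _ => Nat.zero_le _)
            (Finset.mem_univ l)
      _ ≤ _ := Finset.single_le_sum (f := fun x : Fin n → (Fin r → ℤ) × T =>
            ∑ l, ∑ i, ((x l).1 i).natAbs) (fun _ _ => Nat.zero_le _) hx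
  obtain ⟨G', hG', hG'fin, φ, hφ1, hφ2⟩ := model r T (4 * R) ⌈(2 * K) ^ 100000 * A.card⌉₊
  have hinj : ∀ x ∈ A, ∀ y ∈ A, ∀ l, ∀ h h' : (Fin r → ℤ) × T, h.1 = 0 → h'.1 = 0 →
      φ (x l + h) = φ (y l + h') → x l + h = y l + h' := by
    intro x hx y hy l h h' hh hh' e
    rw [← sub_eq_zero, ← map_sub] at e
    rw [← sub_eq_zero]
    refine hφ1 _ (fun i => ?_) e
    have h3 := hR x hx l i
    have h4 := hR y hy l i
    have e1 : (x l + h - (y l + h')).1 i = ((x l).1 i + h.1 i) - ((y l).1 i + h'.1 i) := rfl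
    rw [e1, hh, hh', Pi.zero_apply, add_zero, add_zero]
    omega
  have hinjA : Set.InjOn (cw φ n) A := by
    intro x hx y hy hxy
    funext l
    have h1 := hinj x hx y hy l 0 0 rfl rfl (by
      rw [add_zero, add_zero]
      exact congrFun hxy l)
    rwa [add_zero, add_zero] at h1
  set B := A.image (cw φ n) with hB
  have hBcard : B.card = A.card := Finset.card_image_of_injOn hinjA
  have hBB : ((B + B).card : ℝ) ≤ K * B.card := by
    rw [hBcard]
    refine le_trans ?_ hK
    have h1 : B + B ⊆ (A + A).image (cw φ n) := by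
      intro w hw
      obtain ⟨y, hy, y', hy', rfl⟩ := Finset.mem_add.1 hw
      obtain ⟨x, hx, rfl⟩ := Finset.mem_image.1 hy
      obtain ⟨x', hx', rfl⟩ := Finset.mem_image.1 hy'
      exact Finset.mem_image.2 ⟨x + x', Finset.add_mem_add hx hx', map_add _ _ _⟩
    exact_mod_cast (Finset.card_le_card h1).trans Finset.card_image_le
  obtain ⟨H', hS⟩ := fin_main' (sym_image φ hA) (hne.image _) hBB hn
  -- the order of `H'`
  have hH' : Nat.card H' ≤ ⌈(2 * K) ^ 100000 * A.card⌉₊ := by
    have h1 : Nat.card (zs H' (Finset.univ : Finset (Fin n))) ≤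
        ((B : Set (Fin n → G')) +
          (zs H' (Finset.univ : Finset (Fin n)) : Set (Fin n → G'))).ncard := by
      obtain ⟨b, hb⟩ := hne.image (cw φ n)
      rw [← SetLike.coe_sort_coe, Nat.card_coe_set_eq]
      refine Set.ncard_le_ncard_of_injOn (fun x => b + x) ?_ (fun x _ y _ h => add_left_cancel h)
        (Set.toFinite _)
      intro x hx
      exact Set.add_mem_add (Finset.mem_coe.2 hb) hx
    have h2 := (card_le_zs H' hn2).trans h1
    have h3 : (Nat.card H' : ℝ) ≤ (2 * K) ^ 100000 * A.card := by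
      have h4 := hS.2
      rw [hBcard] at h4
      exact le_trans (by exact_mod_cast h2) h4
    have := h3.trans (Nat.le_ceil ((2 * K) ^ 100000 * A.card))
    exact_mod_cast this
  obtain ⟨H, hHfin, hH1, hH2⟩ := hφ2 H' hH'
  refine ⟨H, hHfin, lift_str φ (by rw [hB, Finset.coe_image]) H' H (fun h hh => (hH1 h hh).1)
    ?_ ?_ hBcard hS⟩
  · intro x hx y hy c d h
    refine hH2 _ (fun i => ?_) h
    have a1 := hR x hx c i
    have a2 := hR x hx d i
    have a3 := hR y hy c i
    have a4 := hR y hy d i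
    have e : ((x c - y c) - (x d - y d)).1 i =
        ((x c).1 i - (y c).1 i) - ((x d).1 i - (y d).1 i) := rfl
    rw [e]
    omega
  · intro x hx y hy l h hh h' hh' e
    exact hinj x hx y hy l h h' (hH1 h hh).2 (hH1 h' hh').2 e

/-- `Str` passes to the image under an injective homomorphism -/
theorem push_str {G G' : Type*} [AddCommGroup G] [AddCommGroup G'] (ι : G →+ G')
    (hι : Function.Injective ι) {A : Finset (Fin n → G)} {B : Finset (Fin n → G')}
    (hBA : (B : Set (Fin n → G')) = cw ι n '' A) {L : ℝ} (H : AddSubgroup G)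
    (hS : Str A L H) : Str B L (H.map ι) := by
  have hinj : Function.Injective (cw ι n) := fun x y h => funext fun l => hι (congrFun h l)
  have hcard : B.card = A.card := by
    have h1 : (B : Set (Fin n → G')).ncard = (A : Set (Fin n → G)).ncard := by
      rw [hBA]
      exact Set.ncard_image_of_injective _ hinj
    rwa [Set.ncard_coe_finset, Set.ncard_coe_finset] at h1
  obtain ⟨⟨T, hT, hTc, hcov⟩, hsize⟩ := hS
  refine ⟨⟨T.image (cw ι n), ?_, ?_, ?_⟩, ?_⟩
  · intro y hy
    obtain ⟨x, hx, rfl⟩ := Finset.mem_image.1 hy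
    rw [← Finset.mem_coe, hBA]
    exact ⟨x, hT hx, rfl⟩
  · exact le_trans (by exact_mod_cast Finset.card_image_le) hTc
  · intro y hy
    rw [← Finset.mem_coe, hBA] at hy
    obtain ⟨x, hx, rfl⟩ := hy
    obtain ⟨t, ht, h⟩ := hcov x hx
    refine ⟨cw ι n t, Finset.mem_image_of_mem _ ht, fun c d => ?_⟩
    rw [cw_apply, cw_apply, cw_apply, cw_apply, ← map_sub, ← map_sub, ← map_sub]
    exact AddSubgroup.mem_map_of_mem _ (h c d)
  · rw [hcard]
    refine le_trans (le_of_eq ?_) hsize
    have h1 : ((B : Set (Fin n → G')) +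
        (zs (H.map ι) (Finset.univ : Finset (Fin n)) : Set (Fin n → G'))) =
        cw ι n '' ((A : Set (Fin n → G)) +
        (zs H (Finset.univ : Finset (Fin n)) : Set (Fin n → G))) := by
      ext y
      constructor
      · rintro ⟨b, hb, h, hh, rfl⟩
        rw [hBA] at hb
        obtain ⟨x, hx, rfl⟩ := hb
        obtain ⟨hh1, -, hh3⟩ := mem_zs.1 hh
        choose g hg1 hg2 using fun l => AddSubgroup.mem_map.1 (hh1 l)
        refine ⟨x + g, Set.add_mem_add hx ⟨hg1, fun l hl => absurd (Finset.mem_univ l) hl, ?_⟩, ?_⟩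
        · apply hι
          rw [map_sum, map_zero, ← hh3]
          exact Finset.sum_congr rfl fun l _ => hg2 l
        · rw [map_add]
          congr 1
          funext l
          exact hg2 l
      · rintro ⟨_, ⟨x, hx, h, hh, rfl⟩, rfl⟩
        rw [map_add]
        refine Set.add_mem_add (by rw [hBA]; exact ⟨x, hx, rfl⟩) ?_
        obtain ⟨hh1, -, hh3⟩ := mem_zs.1 hh
        refine mem_zs.2 ⟨fun l => AddSubgroup.mem_map_of_mem _ (hh1 l),
          fun l hl => absurd (Finset.mem_univ l) hl, ?_⟩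
        have h5 := congrArg ι hh3
        rw [map_sum, map_zero] at h5
        exact h5
    rw [h1, Set.ncard_image_of_injective _ hinj]

/-- **The structure theorem.** -/
theorem gen_main {G : Type u} [AddCommGroup G] [DecidableEq G]
    {A : Finset (Fin n → G)} (hA : Sym A) (hne : A.Nonempty) {K : ℝ}
    (hK : ((A + A).card : ℝ) ≤ K * A.card) (hn : 1000000000 * Real.log (2 * K) ≤ n) :
    ∃ H : AddSubgroup G, Finite H ∧ Str A ((2 * K) ^ 100000) H := by
  set S : Finset G := A.biUnion fun x => Finset.univ.image x with hS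
  set G0 : AddSubgroup G := AddSubgroup.closure (S : Set G) with hG0
  have hcoord : ∀ x ∈ A, ∀ l, x l ∈ G0 := fun x hx l => AddSubgroup.subset_closure
    (Finset.mem_coe.2 (Finset.mem_biUnion.2 ⟨x, hx, Finset.mem_image_of_mem _ (Finset.mem_univ l)⟩))
  have hfg : AddGroup.FG G0 := (AddGroup.fg_iff_addSubgroup_fg G0).2 ⟨S, rfl⟩
  obtain ⟨r, ι, hι, p, hp, e, ⟨f⟩⟩ := AddCommGroup.equiv_free_prod_directSum_zmod G0
  have hne0 : ∀ i, NeZero (p i ^ e i) := fun i => ⟨pow_ne_zero _ (hp i).ne_zero⟩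
  have hfin : Finite (DirectSum ι fun i => ZMod (p i ^ e i)) :=
    Finite.of_equiv _ (DirectSum.addEquivProd fun i => ZMod (p i ^ e i)).symm.toEquiv
  let g : (Fin r →₀ ℤ) ≃+ (Fin r → ℤ) := (Finsupp.linearEquivFunOnFinite ℤ ℤ (Fin r)).toAddEquiv
  let e1 : G0 ≃+ (Fin r → ℤ) × (DirectSum ι fun i => ZMod (p i ^ e i)) :=
    f.trans (AddEquiv.prodCongr g (AddEquiv.refl _))
  let φ : (Fin r → ℤ) × (DirectSum ι fun i => ZMod (p i ^ e i)) →+ G :=
    G0.subtype.comp e1.symm.toAddMonoidHom
  have hφ : Function.Injective φ := fun x y h => e1.symm.injective (Subtype.ext h)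
  have hcw : Function.Injective (cw φ n) := fun x y h => funext fun l => hφ (congrFun h l)
  set A1 := A.preimage (cw φ n) hcw.injOn with hA1
  have himg : A1.image (cw φ n) = A := by
    ext y
    rw [Finset.mem_image]
    constructor
    · rintro ⟨x, hx, rfl⟩
      exact Finset.mem_preimage.1 hx
    · intro hy
      refine ⟨fun l => e1 ⟨y l, hcoord y hy l⟩, ?_, ?_⟩
      · rw [hA1, Finset.mem_preimage]
        have h1 : cw φ n (fun l => e1 ⟨y l, hcoord y hy l⟩) = y := by
          funext l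
          rw [cw_apply]
          show ((e1.symm (e1 ⟨y l, hcoord y hy l⟩) : G0) : G) = y l
          rw [AddEquiv.symm_apply_apply]
        rw [h1]
        exact hy
      · funext l
        rw [cw_apply]
        show ((e1.symm (e1 ⟨y l, hcoord y hy l⟩) : G0) : G) = y l
        rw [AddEquiv.symm_apply_apply]
  have hcard : A1.card = A.card := by
    rw [← himg]
    exact (Finset.card_image_of_injective _ hcw).symm
  have hA1K : ((A1 + A1).card : ℝ) ≤ K * A1.card := by
    rw [hcard]
    refine le_trans ?_ hK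
    have h1 : (A1 + A1).card ≤ (A + A).card := by
      refine Finset.card_le_card_of_injOn (cw φ n) ?_ hcw.injOn
      intro w hw
      obtain ⟨x, hx, y, hy, rfl⟩ := Finset.mem_add.1 (Finset.mem_coe.1 hw)
      rw [map_add]
      exact Finset.mem_coe.2 (Finset.add_mem_add (Finset.mem_preimage.1 hx)
        (Finset.mem_preimage.1 hy))
    exact_mod_cast h1
  have hsym : Sym A1 := by
    intro σ x hx
    rw [hA1, Finset.mem_preimage] at hx ⊢
    exact hA σ _ hx
  have hne1 : A1.Nonempty := by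
    rw [← Finset.card_pos, hcard]
    exact hne.card_pos
  obtain ⟨H, hHfin, hStr⟩ := prod_main r hsym hne1 (K := K) (le_of_eq_of_le (card_add_inst _ _ _) hA1K) hn
  refine ⟨H.map φ, ?_, push_str φ hφ (by rw [← himg, Finset.coe_image]) H hStr⟩
  exact Finite.Set.finite_image (H : Set _) φ

end Pool.Agent.V5helper28.PI
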