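import Pool.Agent.V5helper28.PI.Cons

set_option autoImplicit false
set_option linter.unusedSectionVars false
set_option linter.unusedVariables false

/-!
# Reduction of the polynomial Freiman-Ruzsa conjecture for permutation-invariant sets
-/

open scoped Pointwise

namespace Pool.Agent.V5helper28.PI

open Pool.Agent.R424.EX (one_le fib pr mem_pr mem_one cover card_cov mem_add_nsmul fs mem_fs
  card_fs fs_ne card_le_fib concl_of lift)
open Pool.Agent.R92.Star (Concl)
open Pool.Agent.Y806.DF (Data nat_const hull lat re Body Cov lat_finite pigeon num num_double)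
open Pool.Agent.R849.IS (sec mem_sec card_sec data_sec)

universe u v

variable {n : ℕ}

/-- `Concl` for the image under a homomorphism with finite kernel gives `Data` for the set. -/
theorem data_quot {W : Type u} {Γ' : Type v} [AddCommGroup W] [DecidableEq W] [AddCommGroup Γ']
    [DecidableEq Γ'] {C : ℝ} {n : ℕ} (hn1 : 1 ≤ n) (hn : C ≤ n)
    (hCK : ∀ K : ℝ, 1 ≤ K → C * K ^ C ≤ n * K ^ n) (f : W →+ Γ') (hf : Function.Surjective f)
    [Finite f.ker] {K μ : ℝ} (hK1 : 1 ≤ K) (hμ : 1 ≤ μ) {S : Finset W} (hS : S.Nonempty)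
    (hsz : ((S.image f).card : ℝ) * Nat.card f.ker ≤ μ * S.card) (h : Concl C K (S.image f)) :
    ∃ (d : ℕ) (X : Finset (Fin d → ℤ)) (ψ : (Fin d → ℤ) →+ W) (H : AddSubgroup W) (g : W),
      Data (((4 ^ n : ℕ) : ℝ) * K ^ (4 ^ n : ℕ) * μ) S X ψ H g := by
  classical
  have hK0 : 0 < K := by linarith
  have hlog0 : 0 ≤ Real.log (2 * K) := Real.log_nonneg (by linarith)
  obtain ⟨d, B, ψ, H, T, hd, hB, hH, hvol, hT, hcov⟩ := h
  have hsym : Pool.Agent.Y806.DF.Sym B :=
    ⟨hB.1, hB.2.1, hB.2.2.2, hB.2.2.1.mono interior_subset⟩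
  have hfin : (lat B).Finite := lat_finite hB.2.1.isBounded
  have h4n : 2 * n ≤ 4 ^ n := by
    calc 2 * n ≤ 2 ^ (2 * n) := Nat.lt_two_pow_self.le
      _ = 4 ^ n := by rw [pow_mul]; norm_num
  have hbig : ((n : ℕ) : ℝ) * K ^ n ≤ ((4 ^ n : ℕ) : ℝ) * K ^ (4 ^ n : ℕ) := by
    have e1 : ((n : ℕ) : ℝ) ≤ ((4 ^ n : ℕ) : ℝ) := by exact_mod_cast (by omega : n ≤ 4 ^ n)
    exact mul_le_mul e1 (pow_le_pow_right₀ hK1 (by omega)) (by positivity) (Nat.cast_nonneg _)
  obtain ⟨M, hM⟩ : ∃ M : ℝ, M = ((4 ^ n : ℕ) : ℝ) * K ^ (4 ^ n : ℕ) := ⟨_, rfl⟩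
  have hone : (1 : ℝ) ≤ M := by
    have e1 : (1 : ℝ) ≤ ((4 ^ n : ℕ) : ℝ) := by exact_mod_cast (by omega : 1 ≤ 4 ^ n)
    have e2 : (1 : ℝ) ≤ K ^ (4 ^ n : ℕ) := one_le_pow₀ hK1
    rw [hM]
    nlinarith
  have hdd : (4 : ℝ) ^ d ≤ M := by
    have e1 : (d : ℝ) ≤ n * Real.log (2 * K) := hd.trans (mul_le_mul_of_nonneg_right hn hlog0)
    have e2 : Real.log 4 ≤ 2 := by
      rw [show (4 : ℝ) = 2 ^ 2 by norm_num, Real.log_pow]
      have := Real.log_two_lt_d9
      push_cast
      linarith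
    have e3 : Real.log ((4 : ℝ) ^ d) ≤ Real.log ((2 * K) ^ (2 * n)) := by
      rw [Real.log_pow, Real.log_pow]
      calc (d : ℝ) * Real.log 4 ≤ d * 2 := mul_le_mul_of_nonneg_left e2 (Nat.cast_nonneg _)
        _ ≤ (n * Real.log (2 * K)) * 2 := mul_le_mul_of_nonneg_right e1 (by norm_num)
        _ = ((2 * n : ℕ) : ℝ) * Real.log (2 * K) := by push_cast; ring
    have e4 : (4 : ℝ) ^ d ≤ (2 * K) ^ (2 * n) :=
      (Real.log_le_log_iff (by positivity) (by positivity)).1 e3
    calc (4 : ℝ) ^ d ≤ (2 * K) ^ (2 * n) := e4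
      _ = ((4 ^ n : ℕ) : ℝ) * K ^ (2 * n) := by
        rw [mul_pow, pow_mul 2 2 n]
        push_cast
        norm_num
      _ ≤ M := by
        rw [hM]
        exact mul_le_mul_of_nonneg_left (pow_le_pow_right₀ hK1 h4n) (Nat.cast_nonneg _)
  rw [← hM] at hbig ⊢
  have hMμ : M ≤ M * μ := le_mul_of_one_le_right (by linarith) hμ
  -- the popular translate
  obtain ⟨t, ht, ht2⟩ := pigeon T S S hS
    (fun t a => ∃ x ∈ hfin.toFinset, ∃ h ∈ H, f a = t + ψ x + h)
    subset_rfl (by
      intro a ha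
      obtain ⟨t, ht, x, hx, h, hh, e⟩ := hcov _ (Finset.mem_image_of_mem f ha)
      exact ⟨t, ht, x, (Set.Finite.mem_toFinset _).2 hx, h, hh, e⟩)
  obtain ⟨ψ', hψ'⟩ := lift f hf ψ
  choose s hs using hf
  -- the preimage of `H`
  have hcinj : Function.Injective (fun x : H.comap f =>
      ((⟨f x.1, x.2⟩ : H), (⟨x.1 - s (f x.1), by
        rw [AddMonoidHom.mem_ker, map_sub, hs, sub_self]⟩ : f.ker))) := by
    intro x y hxy
    have h1 : f x.1 = f y.1 := congrArg Subtype.val (congrArg Prod.fst hxy)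
    have h2 : x.1 - s (f x.1) = y.1 - s (f y.1) := congrArg Subtype.val (congrArg Prod.snd hxy)
    rw [h1] at h2
    exact Subtype.ext (sub_left_injective h2)
  have hHfin : Finite (H.comap f) := Finite.of_injective _ hcinj
  have hHcard : Nat.card (H.comap f) ≤ Nat.card H * Nat.card f.ker := by
    rw [← Nat.card_prod]
    exact Nat.card_le_card_of_injective _ hcinj
  refine ⟨d, hfin.toFinset, ψ', H.comap f, s t, ⟨?_, hHfin, ?_, ?_, ?_, ?_⟩⟩
  · refine ⟨0, ?_⟩
    rw [Set.Finite.mem_toFinset]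
    show re 0 ∈ B
    have : re (0 : Fin d → ℤ) = 0 := by funext i; simp [re]
    rw [this]
    exact hsym.zero
  · have h1 : (hfin.toFinset + hfin.toFinset).card ≤ num B 2 := by
      rw [num, Set.ncard_eq_toFinset_card _ (hsym.finite 2)]
      refine Finset.card_le_card ?_
      intro x hx
      obtain ⟨a, ha, b, hb, rfl⟩ := Finset.mem_add.1 hx
      rw [Set.Finite.mem_toFinset] at ha hb ⊢
      have ha' : a ∈ lat ((1 : ℝ) • B) := by rw [one_smul]; exact ha
      have hb' : b ∈ lat ((1 : ℝ) • B) := by rw [one_smul]; exact hb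
      have h2 := hsym.add (by norm_num) (by norm_num) ha' hb'
      norm_num at h2
      exact h2
    have h2 : num B 2 ≤ 4 ^ d * hfin.toFinset.card := by
      have h3 := num_double hsym (t := 1) (by norm_num)
      rw [mul_one] at h3
      have h4 : num B 1 = hfin.toFinset.card := by
        rw [num, one_smul]
        exact Set.ncard_eq_toFinset_card _ hfin
      rwa [h4] at h3
    calc ((hfin.toFinset + hfin.toFinset).card : ℝ) ≤ ((4 ^ d * hfin.toFinset.card : ℕ) : ℝ) := by
          exact_mod_cast h1.trans h2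
      _ = (4 : ℝ) ^ d * hfin.toFinset.card := by push_cast; rfl
      _ ≤ _ := mul_le_mul_of_nonneg_right (hdd.trans hMμ) (Nat.cast_nonneg _)
  · have h1 : hull hfin.toFinset ⊆ (hfin.toFinset : Set (Fin d → ℤ)) := by
      intro v hv
      rw [Finset.mem_coe, Set.Finite.mem_toFinset]
      refine convexHull_min ?_ hsym.conv hv
      rintro _ ⟨x, hx, rfl⟩
      rw [Finset.mem_coe, Set.Finite.mem_toFinset] at hx
      exact hx
    have h2 := Set.ncard_le_ncard h1 (Finset.finite_toSet _)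
    rw [Set.ncard_coe_finset] at h2
    calc ((hull hfin.toFinset).ncard : ℝ) ≤ 1 * hfin.toFinset.card := by
          rw [one_mul]; exact_mod_cast h2
      _ ≤ _ := mul_le_mul_of_nonneg_right (hone.trans hMμ) (Nat.cast_nonneg _)
  · have h1 : (hfin.toFinset.card : ℝ) * Nat.card H ≤ (S.image f).card := by
      rw [Set.ncard_eq_toFinset_card _ hfin] at hvol
      exact_mod_cast hvol
    have h2 : (Nat.card (H.comap f) : ℝ) ≤ Nat.card H * Nat.card f.ker := by exact_mod_cast hHcard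
    calc (hfin.toFinset.card : ℝ) * Nat.card (H.comap f) ≤
          hfin.toFinset.card * (Nat.card H * Nat.card f.ker) :=
          mul_le_mul_of_nonneg_left h2 (Nat.cast_nonneg _)
      _ = (hfin.toFinset.card * Nat.card H) * Nat.card f.ker := by ring
      _ ≤ (S.image f).card * Nat.card f.ker := mul_le_mul_of_nonneg_right h1 (Nat.cast_nonneg _)
      _ ≤ μ * S.card := hsz
      _ ≤ M * μ * S.card := by
        refine mul_le_mul_of_nonneg_right ?_ (Nat.cast_nonneg _)
        exact le_mul_of_one_le_left (by linarith) hone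
  · have h1 : ((S.filter (fun a => ∃ x ∈ hfin.toFinset, ∃ h ∈ H, f a = t + ψ x + h) :
        Finset W) : Set W) ⊆
        {a : W | a ∈ S ∧ ∃ x ∈ hfin.toFinset, ∃ h ∈ H.comap f, a = s t + ψ' x + h} := by
      intro a ha
      rw [Finset.mem_coe, Finset.mem_filter] at ha
      obtain ⟨ha1, x, hx, h, hh, e⟩ := ha
      refine ⟨ha1, x, hx, a - (s t + ψ' x), ?_, by abel⟩
      rw [AddSubgroup.mem_comap, map_sub, map_add, hs, hψ' x, e]
      have e2 : t + ψ x + h - (t + ψ x) = h := by abel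
      rw [e2]
      exact hh
    have h2 := Set.ncard_le_ncard h1 (S.finite_toSet.subset fun a ha => ha.1)
    rw [Set.ncard_coe_finset] at h2
    have hT' : (T.card : ℝ) ≤ M := (hT.trans (hCK K hK1)).trans hbig
    calc (S.card : ℝ) ≤ T.card *
          (S.filter (fun a => ∃ x ∈ hfin.toFinset, ∃ h ∈ H, f a = t + ψ x + h)).card := by
          exact_mod_cast ht2
      _ ≤ M * (S.filter (fun a => ∃ x ∈ hfin.toFinset, ∃ h ∈ H, f a = t + ψ x + h)).card :=
          mul_le_mul_of_nonneg_right hT' (Nat.cast_nonneg _)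
      _ ≤ (M * μ) * {a : W | a ∈ S ∧ ∃ x ∈ hfin.toFinset, ∃ h ∈ H.comap f,
            a = s t + ψ' x + h}.ncard :=
          mul_le_mul hMμ (by exact_mod_cast h2) (Nat.cast_nonneg _) (by nlinarith)

/-- Q1 for the group `Γ` with the constant `C` -/
def Q1Holds (C : ℝ) (Γ : Type*) [AddCommGroup Γ] : Prop :=
  ∀ [DecidableEq Γ] (K : ℝ) (A : Finset Γ), A.Nonempty → ((A + A).card : ℝ) ≤ K * A.card →
    Concl C K A

/-- the class of one coordinate modulo `H` and the sum of the coordinates -/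
noncomputable def cs {G : Type*} [AddCommGroup G] (H : AddSubgroup G) (z : Fin n) :
    (Fin n → G) →+ (G ⧸ H) × G :=
  ((QuotientAddGroup.mk' H).comp (Pi.evalAddMonoidHom (fun _ => G) z)).prod
    { toFun := fun x => ∑ l, x l
      map_zero' := by simp
      map_add' := fun x y => by
        simp only [Pi.add_apply]
        rw [Finset.sum_add_distrib] }

theorem cs_apply {G : Type*} [AddCommGroup G] (H : AddSubgroup G) (z : Fin n) (x : Fin n → G) :
    cs H z x = (((x z : G) : G ⧸ H), ∑ l, x l) := rfl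

/-- **Reduction to the group `(G / H) × G`.** -/
theorem q1_red (C : ℝ) : ∃ C' : ℝ,
    ∀ (G : Type u) [AddCommGroup G] [DecidableEq G] (n : ℕ) (K : ℝ) (A : Finset (Fin n → G)),
      A.Nonempty → Sym A → ((A + A).card : ℝ) ≤ K * A.card →
      1000000000 * Real.log (2 * K) ≤ n →
      (∀ H : AddSubgroup G, Finite H → ∀ Γ' : AddSubgroup ((G ⧸ H) × G), Q1Holds C Γ') →
      Concl C' K A := by
  obtain ⟨m, hm1, hm, hCK⟩ := nat_const C
  obtain ⟨E, hE⟩ : ∃ E : ℕ, E = 100000 := ⟨_, rfl⟩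
  obtain ⟨N, hN⟩ : ∃ N : ℕ, N = (2 * E + 4) * 4 ^ m + 3 * E := ⟨_, rfl⟩
  obtain ⟨C', hC'⟩ := concl_of.{u} (4 ^ m * 2 ^ N) N
  refine ⟨C', ?_⟩
  intro G _ _ n K A hne hA hK hn hQ
  classical
  have hK1 : 1 ≤ K := one_le hne hK
  have h2K : 1 ≤ 2 * K := by linarith
  have hn2 := two_le hK1 hn
  have hApos : (0 : ℝ) < A.card := by exact_mod_cast hne.card_pos
  obtain ⟨H, hHfin, ⟨T, hT, hTc, hcov⟩, hsize⟩ := gen_main hA hne hK hn
  rw [← hE] at hTc hsize
  obtain ⟨L, hL⟩ : ∃ L : ℝ, L = (2 * K) ^ E := ⟨_, rfl⟩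
  rw [← hL] at hTc hsize
  have hL1 : 1 ≤ L := by rw [hL]; exact one_le_pow₀ h2K
  have hL0 : 0 < L := by linarith
  set z : Fin n := ⟨0, by omega⟩ with hz
  set W : AddSubgroup (Fin n → G) := cm H n with hW
  set P : AddSubgroup (Fin n → G) := zs H (Finset.univ : Finset (Fin n)) with hP
  -- the popular coset
  obtain ⟨t, ht, ht2⟩ := pigeon T A A hne (fun t a => a - t ∈ W) subset_rfl (by
    intro a ha
    obtain ⟨t, ht, h⟩ := hcov a ha
    exact ⟨t, ht, fun c d => h c d⟩)
  set S := sec W A t with hS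
  have hSc : S.card = (A.filter fun a => a - t ∈ W).card := by
    rw [hS, card_sec]
  have hbig : (A.card : ℝ) ≤ L * S.card := by
    have h1 : (A.card : ℝ) ≤ T.card * S.card := by
      rw [hSc]
      exact_mod_cast ht2
    exact h1.trans (mul_le_mul_of_nonneg_right hTc (Nat.cast_nonneg _))
  have hSne : S.Nonempty := by
    rw [← Finset.card_pos]
    by_contra hcon
    have h0 : S.card = 0 := by omega
    rw [h0, Nat.cast_zero, mul_zero] at hbig
    linarith
  have hSpos : (0 : ℝ) < S.card := by exact_mod_cast hSne.card_pos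
  set f : W →+ ((cs H z).comp W.subtype).range := ((cs H z).comp W.subtype).rangeRestrict with hf
  have hfs : Function.Surjective f := AddMonoidHom.rangeRestrict_surjective _
  have hker : ∀ x : W, x ∈ f.ker ↔ (x : Fin n → G) ∈ P := by
    intro x
    rw [hf, AddMonoidHom.ker_rangeRestrict, AddMonoidHom.mem_ker]
    rw [AddMonoidHom.comp_apply, AddSubgroup.subtype_apply, cs_apply, Prod.mk_eq_zero,
      QuotientAddGroup.eq_zero_iff]
    constructor
    · rintro ⟨h1, h2⟩
      refine ⟨fun l => ?_, fun l hl => absurd (Finset.mem_univ l) hl, h2⟩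
      have h3 := H.add_mem (x.2 l z) h1
      rwa [sub_add_cancel] at h3
    · intro h
      exact ⟨h.1 z, h.2.2⟩
  have hkinj : Function.Injective (fun x : f.ker => (⟨(x : W), (hker x.1).1 x.2⟩ : P)) := by
    intro x y hxy
    have h : (x : W) = (y : W) := by
      have h1 := congrArg (fun p : P => (p : Fin n → G)) hxy
      exact Subtype.ext h1
    exact Subtype.ext h
  have hkfin : Finite f.ker := Finite.of_injective _ hkinj
  -- sums with the kernel
  have hsum : ∀ (U : Finset W) (U' : Finset (Fin n → G)) (g : Fin n → G),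
      (∀ u ∈ U, g + (u : Fin n → G) ∈ U') → (U + fs f.ker).card ≤ (U' + fs P).card := by
    intro U U' g hU
    refine Finset.card_le_card_of_injOn (fun x => g + (x : Fin n → G)) ?_
      (fun x _ y _ h => Subtype.ext (add_left_cancel h))
    intro x hx
    obtain ⟨u, hu, k, hk, rfl⟩ := Finset.mem_add.1 (Finset.mem_coe.1 hx)
    refine Finset.mem_coe.2 (Finset.mem_add.2 ⟨g + (u : Fin n → G), hU u hu, (k : Fin n → G),
      (mem_fs P _).2 ((hker k).1 ((mem_fs _ k).1 hk)), ?_⟩)
    push_cast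
    abel
  have hAP : ((A + fs P).card : ℝ) ≤ L * A.card := by
    have h1 : ((A + fs P : Finset (Fin n → G)) : Set (Fin n → G)) =
        (A : Set (Fin n → G)) + (P : Set (Fin n → G)) := by
      rw [Finset.coe_add]
      congr 1
      ext x
      exact mem_fs P x
    rw [← h1, Set.ncard_coe_finset] at hsize
    exact hsize
  have hmemS : ∀ u ∈ S, t + (u : Fin n → G) ∈ A := fun u hu => mem_sec.1 hu
  -- size of the image
  have hkc : (fs f.ker).card = Nat.card f.ker := card_fs _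
  have hsz : ((S.image f).card : ℝ) * Nat.card f.ker ≤ L ^ 2 * S.card := by
    have h1 : (S.image f).card * (fs f.ker).card ≤ (S + fs f.ker).card :=
      fib f S (fs f.ker) 0 fun q hq => (mem_fs _ q).1 hq
    have h2 := h1.trans (hsum S A t hmemS)
    rw [hkc] at h2
    calc ((S.image f).card : ℝ) * Nat.card f.ker ≤ (A + fs P).card := by exact_mod_cast h2
      _ ≤ L * A.card := hAP
      _ ≤ L * (L * S.card) := mul_le_mul_of_nonneg_left hbig hL0.le
      _ = _ := by ring
  -- doubling of the image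
  have hcovP : ((A + A + fs P).card : ℝ) ≤ L * (K ^ 4 * A.card) := by
    have h1 : ((fs P + A).card : ℝ) ≤ L * A.card := by rw [add_comm]; exact hAP
    obtain ⟨F, -, hF, hcov⟩ := cover hne h1
    have h2 : A + A + fs P ⊆ F + (3 • A - 1 • A) := by
      intro x hx
      obtain ⟨y, hy, p, hp, rfl⟩ := Finset.mem_add.1 hx
      obtain ⟨w, hw, a, ha, b, hb, rfl⟩ := hcov p hp
      refine Finset.mem_add.2 ⟨w, hw, (y + a) - b, Finset.sub_mem_sub ?_ (mem_one hb), by abel⟩
      have e : (3 : ℕ) • A = A + A + A := by rw [succ_nsmul, two_nsmul]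
      rw [e]
      exact Finset.add_mem_add hy ha
    exact (card_cov hne hK F 3 1 h2).trans
      (mul_le_mul_of_nonneg_right hF (mul_nonneg (pow_nonneg (by linarith) _) hApos.le))
  have hkpos : (0 : ℝ) < Nat.card f.ker := by exact_mod_cast Nat.card_pos
  have hdbl : ((S.image f + S.image f).card : ℝ) ≤ (L ^ 2 * K ^ 4) * (S.image f).card := by
    have h1 : ((S + S).image f).card * (fs f.ker).card ≤ (S + S + fs f.ker).card :=
      fib f (S + S) (fs f.ker) 0 fun q hq => (mem_fs _ q).1 hq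
    have h2 := h1.trans (hsum (S + S) (A + A) (t + t) (by
      intro u hu
      obtain ⟨x, hx, y, hy, rfl⟩ := Finset.mem_add.1 hu
      have e : t + t + ((x + y : W) : Fin n → G) = (t + (x : Fin n → G)) + (t + (y : Fin n → G)) := by
        push_cast
        abel
      rw [e]
      exact Finset.add_mem_add (hmemS x hx) (hmemS y hy)))
    rw [hkc, Finset.image_add f] at h2
    have h3 : S.card ≤ (S.image f).card * (fs f.ker).card := by
      refine card_le_fib f S (fs f.ker) fun a _ b _ hab => ?_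
      rw [mem_fs, AddMonoidHom.mem_ker, map_sub, hab, sub_self]
    rw [hkc] at h3
    have h3' : (S.card : ℝ) ≤ (S.image f).card * Nat.card f.ker := by exact_mod_cast h3
    have h4 : ((S.image f + S.image f).card : ℝ) * Nat.card f.ker ≤
        ((L ^ 2 * K ^ 4) * (S.image f).card) * Nat.card f.ker := by
      calc ((S.image f + S.image f).card : ℝ) * Nat.card f.ker ≤ (A + A + fs P).card := by
            exact_mod_cast h2
        _ ≤ L * (K ^ 4 * A.card) := hcovP
        _ ≤ L * (K ^ 4 * (L * ((S.image f).card * Nat.card f.ker))) := by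
            refine mul_le_mul_of_nonneg_left (mul_le_mul_of_nonneg_left ?_
              (pow_nonneg (by linarith) _)) hL0.le
            exact hbig.trans (mul_le_mul_of_nonneg_left h3' hL0.le)
        _ = _ := by ring
    exact le_of_mul_le_mul_right h4 hkpos
  have hM1 : 1 ≤ L ^ 2 * K ^ 4 := one_le_mul_of_one_le_of_one_le (one_le_pow₀ hL1) (one_le_pow₀ hK1)
  have hconcl : Concl C (L ^ 2 * K ^ 4) (S.image f) := hQ H hHfin _ _ _ (hSne.image f) hdbl
  obtain ⟨d, X, ψ, H', g, hD⟩ := data_quot hm1 hm hCK f hfs hM1 (one_le_pow₀ hL1 : 1 ≤ L ^ 2)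
    hSne hsz hconcl
  have hLL : (0 : ℝ) ≤ ((4 ^ m : ℕ) : ℝ) * (L ^ 2 * K ^ 4) ^ (4 ^ m : ℕ) * L ^ 2 :=
    mul_nonneg (mul_nonneg (Nat.cast_nonneg _) (pow_nonneg (by linarith) _)) (sq_nonneg _)
  obtain ⟨ψ', H'', g', hD'⟩ := data_sec W hL1 hLL hbig hD
  refine hC' (Fin n → G) K A hne hK d X ψ' H'' g' (hD'.mono ?_)
  -- the constants
  have h1 : L ^ 2 * K ^ 4 ≤ (2 * K) ^ (2 * E + 4) := by
    rw [hL, ← pow_mul, pow_add, mul_comm E 2]
    refine mul_le_mul_of_nonneg_left ?_ (pow_nonneg (by linarith) _)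
    exact pow_le_pow_left₀ (by linarith) (by linarith) _
  have h2 : (L ^ 2 * K ^ 4) ^ (4 ^ m : ℕ) ≤ (2 * K) ^ ((2 * E + 4) * 4 ^ m) := by
    rw [pow_mul]
    exact pow_le_pow_left₀ (by linarith) h1 _
  have h3 : L * L ^ 2 = (2 * K) ^ (3 * E) := by
    rw [hL, ← pow_mul, ← pow_add]
    congr 1
    omega
  calc L * (((4 ^ m : ℕ) : ℝ) * (L ^ 2 * K ^ 4) ^ (4 ^ m : ℕ) * L ^ 2)
      = ((4 ^ m : ℕ) : ℝ) * (L ^ 2 * K ^ 4) ^ (4 ^ m : ℕ) * (L * L ^ 2) := by ring
    _ ≤ ((4 ^ m : ℕ) : ℝ) * (2 * K) ^ ((2 * E + 4) * 4 ^ m) * (L * L ^ 2) := by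
        refine mul_le_mul_of_nonneg_right (mul_le_mul_of_nonneg_left h2 (Nat.cast_nonneg _)) ?_
        exact mul_nonneg hL0.le (sq_nonneg _)
    _ = ((4 ^ m : ℕ) : ℝ) * ((2 * K) ^ ((2 * E + 4) * 4 ^ m) * (2 * K) ^ (3 * E)) := by
        rw [h3]
        ring
    _ = ((4 ^ m : ℕ) : ℝ) * (2 * K) ^ N := by rw [← pow_add, hN]
    _ = ((4 ^ m * 2 ^ N : ℕ) : ℝ) * K ^ N := by
        rw [mul_pow]
        push_cast
        ring

end Pool.Agent.V5helper28.PI
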